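import Pool.Agent.helper84.K3B.Csqrt

/-!
# K3B: continuous square roots of homotopies

If `F : [0,1] × ℝ → ℂ` is continuous, nowhere zero and 1-periodic in the second variable, and
`y₀(t)² = F(0,t)`, then there is a continuous, 1-periodic `Y` with `Y² = F` and `Y(0,t) = y₀(t)`.
-/

namespace Pool.Agent.helper84.K3B

open Complex Filter Topology

/-- the clamped time -/
noncomputable def clamp (N j : ℕ) (τ : ℝ) : ℝ := min τ ((j : ℝ) / N)

theorem clamp_mem {N j : ℕ} {τ : ℝ} (hτ : τ ∈ Set.Icc (0 : ℝ) 1) :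
    clamp N j τ ∈ Set.Icc (0 : ℝ) 1 :=
  ⟨le_min hτ.1 (by positivity), (min_le_left _ _).trans hτ.2⟩

theorem clamp_zero {N : ℕ} {τ : ℝ} (hτ : 0 ≤ τ) : clamp N 0 τ = 0 := by
  unfold clamp
  simp [hτ]

theorem clamp_last {N : ℕ} (hN : 0 < N) {τ : ℝ} (hτ : τ ≤ 1) : clamp N N τ = τ := by
  unfold clamp
  have : (N : ℝ) / N = 1 := div_self (by exact_mod_cast hN.ne')
  rw [this]
  exact min_eq_left hτ

theorem clamp_at_zero {N j : ℕ} : clamp N j 0 = 0 := by
  unfold clamp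
  exact min_eq_left (by positivity)

theorem clamp_continuous (N j : ℕ) : Continuous (clamp N j) :=
  continuous_id.min continuous_const

theorem clamp_close {N j : ℕ} (hN : 0 < N) (τ : ℝ) :
    |clamp N (j + 1) τ - clamp N j τ| ≤ 1 / N := by
  have hN' : (0 : ℝ) < N := by exact_mod_cast hN
  have h1 : ((j + 1 : ℕ) : ℝ) / N = (j : ℝ) / N + 1 / N := by
    push_cast
    ring
  unfold clamp
  rw [h1]
  have h2 : 0 < 1 / (N : ℝ) := by positivity
  rw [abs_le]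
  rcases le_total τ ((j : ℝ) / N) with h | h
  · rw [min_eq_left h, min_eq_left (by linarith)]
    constructor <;> linarith
  · rw [min_eq_right h]
    rcases le_total τ ((j : ℝ) / N + 1 / N) with h' | h'
    · rw [min_eq_left h']
      constructor <;> linarith
    · rw [min_eq_right h']
      constructor <;> linarith

/-- telescoping product of quotients in a field -/
theorem prod_range_div_field (f : ℕ → ℂ) (N : ℕ) (h : ∀ j, f j ≠ 0) :
    ∏ j ∈ Finset.range N, f (j + 1) / f j = f N / f 0 := by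
  induction N with
  | zero => rw [Finset.prod_range_zero, div_self (h 0)]
  | succ N ih =>
    rw [Finset.prod_range_succ, ih]
    have := h N
    have := h 0
    field_simp

/-- **continuous square roots of homotopies of loops** -/
theorem sqrt_lift {F : ℝ → ℝ → ℂ}
    (hF : ContinuousOn (fun p : ℝ × ℝ => F p.1 p.2) (Set.Icc 0 1 ×ˢ Set.univ))
    (hper : ∀ τ ∈ Set.Icc (0 : ℝ) 1, ∀ t, F τ (t + 1) = F τ t)
    (hne : ∀ τ ∈ Set.Icc (0 : ℝ) 1, ∀ t, F τ t ≠ 0)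
    {y₀ : ℝ → ℂ} (hy : Continuous y₀) (hyp : ∀ t, y₀ (t + 1) = y₀ t)
    (h0 : ∀ t, y₀ t ^ 2 = F 0 t) :
    ∃ Y : ℝ → ℝ → ℂ,
      ContinuousOn (fun p : ℝ × ℝ => Y p.1 p.2) (Set.Icc 0 1 ×ˢ Set.univ) ∧
      (∀ τ ∈ Set.Icc (0 : ℝ) 1, ∀ t, Y τ (t + 1) = Y τ t) ∧
      (∀ τ ∈ Set.Icc (0 : ℝ) 1, ∀ t, Y τ t ^ 2 = F τ t) ∧ ∀ t, Y 0 t = y₀ t := by
  classical
  have hK : IsCompact (Set.Icc (0 : ℝ) 1 ×ˢ Set.Icc (0 : ℝ) 1) := isCompact_Icc.prod isCompact_Icc
  have hFK : ContinuousOn (fun p : ℝ × ℝ => F p.1 p.2) (Set.Icc (0 : ℝ) 1 ×ˢ Set.Icc (0 : ℝ) 1) :=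
    hF.mono (Set.prod_mono le_rfl (Set.subset_univ _))
  -- lower bound
  obtain ⟨m, hm0, hm⟩ : ∃ m : ℝ, 0 < m ∧ ∀ p ∈ Set.Icc (0 : ℝ) 1 ×ˢ Set.Icc (0 : ℝ) 1,
      m ≤ ‖F p.1 p.2‖ := by
    obtain ⟨q, hq, hmin⟩ := hK.exists_isMinOn ⟨(0, 0), ⟨by simp, by simp⟩⟩ hFK.norm
    exact ⟨‖F q.1 q.2‖, norm_pos_iff.2 (hne q.1 hq.1 q.2), fun p hp => hmin hp⟩
  -- uniform continuity
  have huc := hK.uniformContinuousOn_of_continuous hFK
  obtain ⟨δ, hδ, hu⟩ := Metric.uniformContinuousOn_iff.1 huc m hm0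
  obtain ⟨n, hn⟩ := exists_nat_gt (1 / δ)
  obtain ⟨N, hNd⟩ : ∃ N : ℕ, N = n + 1 := ⟨_, rfl⟩
  have hN : 0 < N := by omega
  have hN' : (0 : ℝ) < N := by exact_mod_cast hN
  have hNδ : 1 / (N : ℝ) < δ := by
    have h1 : (n : ℝ) < N := by
      have : n < N := by omega
      exact_mod_cast this
    rw [div_lt_iff₀ hN']
    rw [div_lt_iff₀ hδ] at hn
    nlinarith
  -- reduction of `t` modulo 1
  have hfr : ∀ τ ∈ Set.Icc (0 : ℝ) 1, ∀ t : ℝ, F τ t = F τ (Int.fract t) := by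
    intro τ hτ t
    have hz : ∀ k : ℕ, ∀ t, F τ (t + k) = F τ t := by
      intro k
      induction k with
      | zero => intro t; simp
      | succ k ih =>
        intro t
        have : t + ((k + 1 : ℕ) : ℝ) = (t + k) + 1 := by push_cast; ring
        rw [this, hper τ hτ, ih]
    have hz' : ∀ k : ℤ, ∀ t, F τ (t + k) = F τ t := by
      intro k t
      rcases Int.eq_nat_or_neg k with ⟨l, rfl | rfl⟩
      · exact_mod_cast hz l t
      · have := hz l (t + ((-(l : ℤ) : ℤ) : ℝ))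
        rw [← this]
        congr 1
        push_cast
        ring
    have h1 := hz' ⌊t⌋ (Int.fract t)
    rw [Int.fract_add_floor] at h1
    exact h1
  -- the ratios lie in the right half plane
  have hratio : ∀ τ ∈ Set.Icc (0 : ℝ) 1, ∀ τ' ∈ Set.Icc (0 : ℝ) 1, |τ' - τ| ≤ 1 / N → ∀ t,
      F τ' t / F τ t ∈ slitPlane := by
    intro τ hτ τ' hτ' hd t
    have hft : Int.fract t ∈ Set.Icc (0 : ℝ) 1 := ⟨Int.fract_nonneg t, (Int.fract_lt_one t).le⟩
    rw [hfr τ hτ t, hfr τ' hτ' t]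
    have h1 := hu (τ', Int.fract t) ⟨hτ', hft⟩ (τ, Int.fract t) ⟨hτ, hft⟩ (by
      rw [Prod.dist_eq, max_lt_iff, dist_self, Real.dist_eq]
      exact ⟨lt_of_le_of_lt hd hNδ, hδ⟩)
    have h2 := hm (τ, Int.fract t) ⟨hτ, hft⟩
    simp only [dist_eq_norm] at h1 h2
    have h3 : ‖F τ' (Int.fract t) / F τ (Int.fract t) - 1‖ < 1 := by
      have h4 : F τ (Int.fract t) ≠ 0 := hne τ hτ _
      have h5 : F τ' (Int.fract t) / F τ (Int.fract t) - 1 =
          (F τ' (Int.fract t) - F τ (Int.fract t)) / F τ (Int.fract t) := by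
        field_simp
      rw [h5, norm_div, div_lt_one (norm_pos_iff.2 h4)]
      linarith
    rw [mem_slitPlane_iff]
    left
    have h6 := (abs_lt.1 (lt_of_le_of_lt (Complex.abs_re_le_norm _) h3)).1
    rw [sub_re, one_re] at h6
    linarith
  have hfac : ∀ j, ∀ τ ∈ Set.Icc (0 : ℝ) 1, ∀ t,
      F (clamp N (j + 1) τ) t / F (clamp N j τ) t ∈ slitPlane := fun j τ hτ t =>
    hratio _ (clamp_mem hτ) _ (clamp_mem hτ) (clamp_close hN τ) t
  have hcj : ∀ j, ContinuousOn (fun p : ℝ × ℝ => F (clamp N j p.1) p.2)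
      (Set.Icc 0 1 ×ˢ Set.univ) := by
    intro j
    refine hF.comp (f := fun p : ℝ × ℝ => (clamp N j p.1, p.2)) ?_ ?_
    · exact (((clamp_continuous N j).comp continuous_fst).prodMk continuous_snd).continuousOn
    · rintro p ⟨hp1, hp2⟩
      exact ⟨clamp_mem hp1, hp2⟩
  refine ⟨fun τ t => y₀ t * ∏ j ∈ Finset.range N,
    csqrt (F (clamp N (j + 1) τ) t / F (clamp N j τ) t), ?_, ?_, ?_, ?_⟩
  · refine (hy.comp continuous_snd).continuousOn.mul (continuousOn_finsetProd _ fun j _ => ?_)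
    refine ContinuousOn.csqrt ((hcj (j + 1)).div (hcj j) ?_) ?_
    · rintro p ⟨hp1, hp2⟩
      exact hne _ (clamp_mem hp1) _
    · rintro p ⟨hp1, hp2⟩
      exact hfac j p.1 hp1 p.2
  · intro τ hτ t
    simp only [hyp]
    congr 1
    refine Finset.prod_congr rfl fun j _ => ?_
    rw [hper _ (clamp_mem hτ), hper _ (clamp_mem hτ)]
  · intro τ hτ t
    rw [mul_pow, h0, ← Finset.prod_pow]
    simp only [csqrt_sq]
    rw [prod_range_div_field (fun j => F (clamp N j τ) t) N fun j => hne _ (clamp_mem hτ) t]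
    rw [clamp_zero hτ.1, clamp_last hN hτ.2]
    have := hne 0 ⟨le_rfl, zero_le_one⟩ t
    field_simp
  · intro t
    simp only [clamp_at_zero]
    rw [div_self (hne 0 ⟨le_rfl, zero_le_one⟩ t)]
    simp

end Pool.Agent.helper84.K3B
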