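import Pool.Agent.helper10.K3B.TorDef
import Pool.Agent.helper10.K3B.Top
import Pool.Agent.helper84.K3B.SqrtLift

/-!
# K3B: free homotopies inside one fibre, general part

`FHom b g g'`: the loops `g`, `g'` are freely homotopic in the fibre over `b`.
-/

namespace TripleBurger

open Complex K3B

/-! ### points with finite `x₀`, `x₁` -/

/-- `(x - s)(x - (s - e))(x - 1)(x + 1)` -/
noncomputable def ff (s e x : ℂ) : ℂ := (x - s) * (x - (s - e)) * ((x - 1) * (x + 1))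

theorem quartic_zero_one (b : Param) (x : ℂ) : quartic b 0 1 x = ff (b 0) (b 1) x := by
  unfold quartic ff
  rw [Fin.prod_univ_four]
  simp only [root, Matrix.cons_val_zero, Matrix.cons_val_one, Matrix.cons_val]
  ring

theorem quartic_one_one (b : Param) (x : ℂ) : quartic b 1 1 x = ff (b 2) (b 3) x := by
  unfold quartic ff
  rw [Fin.prod_univ_four]
  simp only [root, Matrix.cons_val_zero, Matrix.cons_val_one, Matrix.cons_val]
  ring

theorem ff_continuous (s e : ℂ) : Continuous (ff s e) := by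
  unfold ff
  fun_prop

/-- the conditions for a point with homogeneous coordinates `[1:x₀:y₀]`, `[1:x₁:y₁]`,
`[w:X:Y]` -/
structure PtOK (b : Param) (x0 y0 x1 y1 w X Y : ℂ) : Prop where
  hb : b ∈ BaseSet
  h0 : y0 ^ 2 = quartic b 0 1 x0
  h1 : y1 ^ 2 = quartic b 1 1 x1
  hne : w ≠ 0 ∨ X ≠ 0
  h2 : Y ^ 2 = X ^ 4 - w ^ 4
  rel : x0 * X = b 4 * x1 * w

/-- the point -/
def ptCone (b : Param) (x0 y0 x1 y1 w X Y : ℂ) (h : PtOK b x0 y0 x1 y1 w X Y) : Cone :=
  ⟨(b, ![1, 1, w], ![x0, x1, X], ![y0, y1, Y]), h.hb, by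
      intro i; fin_cases i
      · left; simp
      · left; simp
      · simpa using h.hne, by
      intro i; fin_cases i
      · simpa using h.h0
      · simpa using h.h1
      · have := h.h2
        rw [← quartic_two b] at this
        simpa using this, by simpa using h.rel⟩

theorem ptCone_congr {b : Param} {x0 y0 x1 y1 w X Y x0' y0' x1' y1' w' X' Y' : ℂ}
    (h : PtOK b x0 y0 x1 y1 w X Y) (h' : PtOK b x0' y0' x1' y1' w' X' Y')
    (e1 : x0 = x0') (e2 : y0 = y0') (e3 : x1 = x1') (e4 : y1 = y1') (e5 : w = w') (e6 : X = X')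
    (e7 : Y = Y') : ptCone b x0 y0 x1 y1 w X Y h = ptCone b x0' y0' x1' y1' w' X' Y' h' := by
  subst e1 e2 e3 e4 e5 e6 e7
  rfl

theorem secCone_eq_ptCone {b : Param} {y0 y1 w X Y : ℂ} (h : SecOK b y0 y1 w X Y)
    {x0 y0' x1 y1' : ℂ} (h' : PtOK b x0 y0' x1 y1' w X Y) (e1 : x0 = 0) (e2 : y0' = y0)
    (e3 : x1 = 0) (e4 : y1' = y1) : ptCone b x0 y0' x1 y1' w X Y h' = secCone b y0 y1 w X Y h := by
  subst e1 e2 e3 e4
  rfl

theorem vec3_continuous {Z : Type*} [TopologicalSpace Z] {a b c : Z → ℂ} (ha : Continuous a)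
    (hb : Continuous b) (hc : Continuous c) : Continuous fun z => (![a z, b z, c z] : Fin 3 → ℂ) := by
  refine continuous_pi fun i => ?_
  fin_cases i
  · simpa using ha
  · simpa using hb
  · simpa using hc

theorem pt_continuous {Z : Type*} [TopologicalSpace Z] {b : Param} {x0 y0 x1 y1 w X Y : Z → ℂ}
    (c1 : Continuous x0) (c2 : Continuous y0) (c3 : Continuous x1) (c4 : Continuous y1)
    (c5 : Continuous w) (c6 : Continuous X) (c7 : Continuous Y)
    (h : ∀ z, PtOK b (x0 z) (y0 z) (x1 z) (y1 z) (w z) (X z) (Y z)) :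
    Continuous fun z => Total.mk (ptCone b _ _ _ _ _ _ _ (h z)) := by
  refine mk_continuous.comp ?_
  refine Continuous.subtype_mk ?_ _
  exact continuous_const.prodMk ((vec3_continuous continuous_const continuous_const c5).prodMk
    ((vec3_continuous c1 c3 c6).prodMk (vec3_continuous c2 c4 c7)))

/-! ### homotopies -/

/-- free homotopy of loops in the fibre over `b` -/
def FHom (b : Param) (g g' : ℝ → Total) : Prop :=
  ∃ G : ℝ → ℝ → Total, Continuous (fun p : ℝ × ℝ => G p.1 p.2) ∧ (∀ τ t, G τ (t + 1) = G τ t) ∧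
    (∀ t, G 0 t = g t) ∧ (∀ t, G 1 t = g' t) ∧ ∀ τ t, (G τ t).proj = b

open Classical in
theorem FHom.trans {b : Param} {g g' g'' : ℝ → Total} (h : FHom b g g') (h' : FHom b g' g'') :
    FHom b g g'' := by
  obtain ⟨G, c, p, h0, h1, hb⟩ := h
  obtain ⟨G', c', p', h0', h1', hb'⟩ := h'
  refine ⟨fun τ t => if τ ≤ 1 / 2 then G (2 * τ) t else G' (2 * τ - 1) t, ?_, ?_, ?_, ?_, ?_⟩
  · refine Continuous.if_le (f := fun q : ℝ × ℝ => q.1) (g := fun _ => (1 / 2 : ℝ))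
      (f' := fun q : ℝ × ℝ => G (2 * q.1) q.2) (g' := fun q : ℝ × ℝ => G' (2 * q.1 - 1) q.2)
      ?_ ?_ continuous_fst continuous_const ?_
    · exact c.comp (f := fun q : ℝ × ℝ => (2 * q.1, q.2)) (by fun_prop)
    · exact c'.comp (f := fun q : ℝ × ℝ => (2 * q.1 - 1, q.2)) (by fun_prop)
    · intro q hq
      have e1 : 2 * q.1 = 1 := by linarith
      have e2 : 2 * q.1 - 1 = 0 := by linarith
      rw [e2, e1, h1, h0']
  · intro τ t
    simp only [p, p']
  · intro t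
    beta_reduce
    rw [if_pos (by norm_num), mul_zero, h0]
  · intro t
    beta_reduce
    rw [if_neg (by norm_num)]
    have : (2 * 1 - 1 : ℝ) = 1 := by norm_num
    rw [this, h1']
  · intro τ t
    show (if τ ≤ 1 / 2 then G (2 * τ) t else G' (2 * τ - 1) t).proj = b
    split_ifs
    · exact hb _ _
    · exact hb' _ _

/-- a family of points gives a homotopy -/
theorem fhom_of {b : Param} {x0 y0 x1 y1 : ℝ → ℝ → ℂ} {w X Y : ℝ → ℂ}
    (c1 : Continuous fun p : ℝ × ℝ => x0 p.1 p.2) (c2 : Continuous fun p : ℝ × ℝ => y0 p.1 p.2)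
    (c3 : Continuous fun p : ℝ × ℝ => x1 p.1 p.2) (c4 : Continuous fun p : ℝ × ℝ => y1 p.1 p.2)
    (c5 : Continuous w) (c6 : Continuous X) (c7 : Continuous Y)
    (p1 : ∀ τ t, x0 τ (t + 1) = x0 τ t) (p2 : ∀ τ t, y0 τ (t + 1) = y0 τ t)
    (p3 : ∀ τ t, x1 τ (t + 1) = x1 τ t) (p4 : ∀ τ t, y1 τ (t + 1) = y1 τ t)
    (p5 : ∀ t, w (t + 1) = w t) (p6 : ∀ t, X (t + 1) = X t) (p7 : ∀ t, Y (t + 1) = Y t)
    (ok : ∀ τ t, PtOK b (x0 τ t) (y0 τ t) (x1 τ t) (y1 τ t) (w t) (X t) (Y t)) :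
    FHom b (fun t => Total.mk (ptCone b _ _ _ _ _ _ _ (ok 0 t)))
      (fun t => Total.mk (ptCone b _ _ _ _ _ _ _ (ok 1 t))) := by
  refine ⟨fun τ t => Total.mk (ptCone b _ _ _ _ _ _ _ (ok τ t)), ?_, ?_, fun _ => rfl,
    fun _ => rfl, fun _ _ => rfl⟩
  · exact pt_continuous (Z := ℝ × ℝ) c1 c2 c3 c4 (c5.comp continuous_snd)
      (c6.comp continuous_snd) (c7.comp continuous_snd) (fun p => ok p.1 p.2)
  · intro τ t
    exact congrArg Total.mk (ptCone_congr _ _ (p1 τ t) (p2 τ t) (p3 τ t) (p4 τ t) (p5 t) (p6 t)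
      (p7 t))

/-- clamping to `[0,1]` -/
noncomputable def cl (τ : ℝ) : ℝ := max 0 (min τ 1)

theorem cl_continuous : Continuous cl := continuous_const.max (continuous_id.min continuous_const)

theorem cl_mem (τ : ℝ) : cl τ ∈ Set.Icc (0 : ℝ) 1 :=
  ⟨le_max_left _ _, max_le zero_le_one (min_le_right _ _)⟩

/-- the tent function `[0,1/2,1] → [0,1,0]` -/
noncomputable def kf (τ : ℝ) : ℝ := min (2 * cl τ) (2 - 2 * cl τ)

theorem kf_continuous : Continuous kf :=
  (continuous_const.mul cl_continuous).min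
    (continuous_const.sub (continuous_const.mul cl_continuous))

theorem kf_mem (τ : ℝ) : kf τ ∈ Set.Icc (0 : ℝ) 1 := by
  have h := cl_mem τ
  refine ⟨le_min ?_ ?_, ?_⟩
  · linarith [h.1]
  · linarith [h.2]
  · unfold kf
    rcases le_total (cl τ) (1 / 2) with h' | h'
    · exact (min_le_left _ _).trans (by linarith)
    · exact (min_le_right _ _).trans (by linarith)

theorem kf_zero : kf 0 = 0 := by
  unfold kf cl
  norm_num

theorem kf_one : kf 1 = 0 := by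
  unfold kf cl
  norm_num

theorem kf_half {τ : ℝ} (h : cl τ = 1 / 2) : kf τ = 1 := by
  unfold kf
  rw [h]
  norm_num

open Classical in
/-- going to the branch point and back on the other sheet -/
noncomputable def fold (η : ℝ → ℂ) (τ : ℝ) : ℂ := if cl τ ≤ 1 / 2 then η (kf τ) else -η (kf τ)

theorem fold_continuous {η : ℝ → ℂ} (hη : ContinuousOn η (Set.Icc 0 1)) (h1 : η 1 = 0) :
    Continuous (fold η) := by
  classical
  have hc : Continuous fun τ => η (kf τ) := hη.comp_continuous kf_continuous kf_mem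
  refine Continuous.if_le (f' := fun τ => η (kf τ)) (g' := fun τ => -η (kf τ)) hc hc.neg
    cl_continuous continuous_const ?_
  intro τ hτ
  rw [kf_half hτ, h1, neg_zero]

theorem fold_sq (η : ℝ → ℂ) (τ : ℝ) : fold η τ ^ 2 = η (kf τ) ^ 2 := by
  unfold fold
  split_ifs
  · rfl
  · rw [neg_sq]

theorem fold_zero (η : ℝ → ℂ) : fold η 0 = η 0 := by
  unfold fold
  rw [if_pos, kf_zero]
  unfold cl
  norm_num

theorem fold_one (η : ℝ → ℂ) : fold η 1 = -η 0 := by
  unfold fold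
  rw [if_neg, kf_one]
  unfold cl
  norm_num

/-! ### the path to a branch point -/

theorem exists_path {r0 r1 θ ψ : ℝ} (h1 : 0 < r1) (h10 : r1 < r0 / 4) (h0 : r0 < 1 / 4) (y : ℂ)
    (hy : y ^ 2 = ff ((r0 : ℂ) * exp (θ * I)) (r1 : ℂ) 0) :
    ∃ P η : ℝ → ℂ, ContinuousOn P (Set.Icc 0 1) ∧ ContinuousOn η (Set.Icc 0 1) ∧ P 0 = 0 ∧
      η 0 = y ∧ η 1 = 0 ∧
      (∀ τ ∈ Set.Icc (0 : ℝ) 1, η τ ^ 2 = ff ((r0 : ℂ) * exp (θ * I)) (r1 : ℂ) (P τ)) ∧
      ∀ τ ∈ Set.Icc (0 : ℝ) 1, ‖P τ‖ ≤ r0 ∧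
        (r0 / 2 ≤ ‖P τ‖ ∨ ∃ r : ℝ, 0 ≤ r ∧ P τ = (r : ℂ) * exp (ψ * I)) := by
  classical
  have hr0 : 0 < r0 := by linarith
  obtain ⟨v, hv⟩ : ∃ v : ℂ, v = exp (θ * I) := ⟨_, rfl⟩
  have hvn : ‖v‖ = 1 := by rw [hv]; exact norm_exp_ofReal_mul_I θ
  have hv0 : v ≠ 0 := by
    intro h
    rw [h, norm_zero] at hvn
    exact zero_ne_one hvn
  rw [← hv] at hy ⊢
  -- the end point
  obtain ⟨ℓ, r', hl1, hl2, hff, hr', hr'n⟩ : ∃ (ℓ : ℝ) (r' : ℂ), 3 / 4 * r0 ≤ ℓ ∧ ℓ ≤ r0 ∧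
      (∀ x, ff ((r0 : ℂ) * v) (r1 : ℂ) x = (x - (ℓ : ℂ) * v) * ((x - r') * ((x - 1) * (x + 1)))) ∧
      (∀ m : ℝ, m ≤ ℓ → (m : ℂ) * v ≠ r') ∧ 3 / 4 * r0 ≤ ‖r'‖ := by
    by_cases h : v = 1
    · refine ⟨r0 - r1, (r0 : ℂ), by linarith, by linarith, ?_, ?_, ?_⟩
      · intro x
        unfold ff
        rw [h]
        push_cast
        ring
      · intro m hm hm'
        rw [h, mul_one] at hm'
        have := Complex.ofReal_injective hm'
        linarith
      · rw [Complex.norm_real, Real.norm_of_nonneg hr0.le]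
        linarith
    · refine ⟨r0, (r0 : ℂ) * v - (r1 : ℂ), by linarith, le_rfl, ?_, ?_, ?_⟩
      · intro x
        unfold ff
        ring
      · intro m hm hm'
        have e1 : ((r0 - m : ℝ) : ℂ) * v = ((r1 : ℝ) : ℂ) := by
          push_cast
          linear_combination -hm'
        have e2 := congrArg norm e1
        rw [norm_mul, hvn, mul_one, Complex.norm_real, Complex.norm_real,
          Real.norm_of_nonneg (by linarith), Real.norm_of_nonneg h1.le] at e2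
        rw [e2] at e1
        have e3 : ((r1 : ℝ) : ℂ) ≠ 0 := by exact_mod_cast h1.ne'
        apply h
        have e4 : ((r1 : ℝ) : ℂ) * v = ((r1 : ℝ) : ℂ) * 1 := by rw [mul_one]; exact e1
        exact mul_left_cancel₀ e3 e4
      · have e5 := norm_sub_norm_le ((r0 : ℂ) * v) (r1 : ℂ)
        rw [norm_mul, hvn, mul_one, Complex.norm_real, Complex.norm_real,
          Real.norm_of_nonneg hr0.le, Real.norm_of_nonneg h1.le] at e5
        linarith
  -- the path
  obtain ⟨mm, hmm⟩ : ∃ mm : ℝ → ℝ, mm = fun τ =>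
    (r0 / 2) * min (3 * τ) 1 + (ℓ - r0 / 2) * max (3 * τ - 2) 0 := ⟨_, rfl⟩
  obtain ⟨th, hth⟩ : ∃ th : ℝ → ℝ, th = fun τ =>
    ψ + (θ - ψ) * max 0 (min (3 * τ - 1) 1) := ⟨_, rfl⟩
  have cmm : Continuous mm := by rw [hmm]; fun_prop
  have cth : Continuous th := by rw [hth]; fun_prop
  obtain ⟨P, hP⟩ : ∃ P : ℝ → ℂ, P = fun τ => (mm τ : ℂ) * exp ((th τ : ℂ) * I) := ⟨_, rfl⟩
  have cP : Continuous P := by
    rw [hP]
    exact (Complex.continuous_ofReal.comp cmm).mul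
      (Complex.continuous_exp.comp ((Complex.continuous_ofReal.comp cth).mul continuous_const))
  have hm3 : ∀ τ ∈ Set.Icc (2 / 3 : ℝ) 1, mm τ = r0 / 2 + (ℓ - r0 / 2) * (3 * τ - 2) ∧
      th τ = θ := by
    intro τ hτ
    rw [hmm, hth]
    simp only
    rw [min_eq_right (by linarith [hτ.1]), max_eq_left (by linarith [hτ.1]),
      min_eq_right (by linarith [hτ.1]), max_eq_right zero_le_one]
    constructor <;> ring
  have hm2 : ∀ τ ∈ Set.Icc (0 : ℝ) (2 / 3), mm τ = (r0 / 2) * min (3 * τ) 1 := by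
    intro τ hτ
    rw [hmm]
    simp only
    rw [max_eq_right (by linarith [hτ.2])]
    ring
  have hm1 : ∀ τ ∈ Set.Icc (0 : ℝ) (1 / 3), mm τ = (r0 / 2) * (3 * τ) ∧ th τ = ψ := by
    intro τ hτ
    rw [hm2 τ ⟨hτ.1, by linarith [hτ.2]⟩, hth]
    simp only
    rw [min_eq_left (by linarith [hτ.2]),
      max_eq_left ((min_le_left _ _).trans (by linarith [hτ.2]))]
    constructor <;> ring
  have hmn : ∀ τ ∈ Set.Icc (0 : ℝ) 1, 0 ≤ mm τ ∧ mm τ ≤ ℓ := by
    intro τ hτ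
    rcases le_total τ (2 / 3) with h | h
    · rw [hm2 τ ⟨hτ.1, h⟩]
      have e1 : 0 ≤ min (3 * τ) 1 := le_min (by linarith [hτ.1]) zero_le_one
      have e2 : min (3 * τ) 1 ≤ 1 := min_le_right _ _
      constructor
      · positivity
      · nlinarith
    · rw [(hm3 τ ⟨h, hτ.2⟩).1]
      have e1 : 0 ≤ 3 * τ - 2 := by linarith
      have e2 : 3 * τ - 2 ≤ 1 := by linarith [hτ.2]
      have e3 : 0 ≤ ℓ - r0 / 2 := by linarith
      constructor
      · positivity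
      · nlinarith
  have hPn : ∀ τ ∈ Set.Icc (0 : ℝ) 1, ‖P τ‖ = mm τ := by
    intro τ hτ
    rw [hP]
    simp only
    rw [norm_mul, norm_exp_ofReal_mul_I, mul_one, Complex.norm_real,
      Real.norm_of_nonneg (hmn τ hτ).1]
  have hP3 : ∀ τ ∈ Set.Icc (2 / 3 : ℝ) 1,
      P τ = ((r0 / 2 + (ℓ - r0 / 2) * (3 * τ - 2) : ℝ) : ℂ) * v := by
    intro τ hτ
    obtain ⟨e1, e2⟩ := hm3 τ hτ
    rw [hP]
    simp only
    rw [e1, e2, hv]
  -- the reduced function
  obtain ⟨D, hD⟩ : ∃ D : ℝ → ℂ, D = fun τ => if τ ≤ 2 / 3 then P τ - (ℓ : ℂ) * v else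
    -(((ℓ - r0 / 2 : ℝ) : ℂ) * v) := ⟨_, rfl⟩
  have cD : Continuous D := by
    rw [hD]
    refine Continuous.if_le (cP.sub continuous_const) continuous_const continuous_id
      continuous_const ?_
    intro τ hτ
    rw [hP3 τ ⟨by rw [hτ], by rw [hτ]; norm_num⟩, hτ]
    push_cast
    ring
  have hDne : ∀ τ ∈ Set.Icc (0 : ℝ) 1, D τ ≠ 0 := by
    intro τ hτ
    rw [hD]
    simp only
    by_cases h : τ ≤ 2 / 3
    · rw [if_pos h]
      intro h'
      have e1 : P τ = (ℓ : ℂ) * v := sub_eq_zero.1 h'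
      have e2 := congrArg norm e1
      rw [hPn τ hτ, norm_mul, hvn, mul_one, Complex.norm_real,
        Real.norm_of_nonneg (by linarith), hm2 τ ⟨hτ.1, h⟩] at e2
      have e3 : min (3 * τ) 1 ≤ 1 := min_le_right _ _
      nlinarith
    · rw [if_neg h, neg_ne_zero]
      refine mul_ne_zero ?_ hv0
      have : ℓ - r0 / 2 ≠ 0 := by linarith
      exact_mod_cast this
  obtain ⟨Fd, hFd⟩ : ∃ Fd : ℝ → ℂ, Fd = fun τ =>
    D τ * ((P τ - r') * ((P τ - 1) * (P τ + 1))) := ⟨_, rfl⟩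
  have cFd : Continuous Fd := by
    rw [hFd]
    exact cD.mul ((cP.sub continuous_const).mul ((cP.sub continuous_const).mul
      (cP.add continuous_const)))
  have hP1 : ∀ τ ∈ Set.Icc (0 : ℝ) 1, ‖P τ‖ < 1 := by
    intro τ hτ
    rw [hPn τ hτ]
    linarith [(hmn τ hτ).2]
  have hFne : ∀ τ ∈ Set.Icc (0 : ℝ) 1, Fd τ ≠ 0 := by
    intro τ hτ
    have hlt := hP1 τ hτ
    rw [hFd]
    refine mul_ne_zero (hDne τ hτ) (mul_ne_zero ?_ (mul_ne_zero ?_ ?_))
    · rw [sub_ne_zero]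
      rcases le_total τ (2 / 3) with h | h
      · intro h'
        have e2 := congrArg norm h'
        rw [hPn τ hτ, hm2 τ ⟨hτ.1, h⟩] at e2
        have e3 : min (3 * τ) 1 ≤ 1 := min_le_right _ _
        nlinarith
      · rw [hP3 τ ⟨h, hτ.2⟩]
        refine hr' _ ?_
        have e1 : 3 * τ - 2 ≤ 1 := by linarith [hτ.2]
        have e3 : 0 ≤ ℓ - r0 / 2 := by linarith
        nlinarith
    · rw [sub_ne_zero]
      intro h'
      rw [h', norm_one] at hlt
      exact lt_irrefl _ hlt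
    · intro h'
      have h'' : P τ = -1 := eq_neg_of_add_eq_zero_left h'
      rw [h'', norm_neg, norm_one] at hlt
      exact lt_irrefl _ hlt
  have hP0 : P 0 = 0 := by
    rw [hP]
    simp only
    rw [(hm1 0 ⟨le_rfl, by norm_num⟩).1]
    simp
  obtain ⟨Y, cY, -, hYsq, hY0⟩ := Pool.Agent.helper84.K3B.sqrt_lift
    (F := fun τ _ => Fd τ) (y₀ := fun _ => y)
    ((cFd.comp continuous_fst).continuousOn) (fun _ _ _ => rfl)
    (fun τ hτ _ => hFne τ hτ) continuous_const (fun _ => rfl) (fun _ => by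
      rw [hy, hff, hFd, hD]
      simp only
      rw [if_pos (by norm_num), hP0])
  obtain ⟨φ, hφ⟩ : ∃ φ : ℝ → ℝ, φ = fun τ => min (3 * (1 - τ)) 1 := ⟨_, rfl⟩
  have cφ : Continuous φ := by rw [hφ]; fun_prop
  refine ⟨P, fun τ => ((Real.sqrt (φ τ) : ℝ) : ℂ) * Y τ 0, cP.continuousOn, ?_, hP0, ?_, ?_, ?_, ?_⟩
  · refine (Complex.continuous_ofReal.comp (Real.continuous_sqrt.comp cφ)).continuousOn.mul ?_
    exact cY.comp (f := fun τ : ℝ => (τ, (0 : ℝ))) (by fun_prop)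
      (fun τ hτ => ⟨hτ, Set.mem_univ _⟩)
  · simp only
    rw [hY0, hφ]
    simp only
    norm_num
  · rw [hφ]
    simp only
    norm_num
  · intro τ hτ
    simp only
    have hφ0 : 0 ≤ φ τ := by
      rw [hφ]
      exact le_min (by linarith [hτ.2]) zero_le_one
    rw [mul_pow, ← Complex.ofReal_pow, Real.sq_sqrt hφ0, hYsq τ hτ, hff, hFd, hD, hφ]
    simp only
    by_cases h : τ ≤ 2 / 3
    · rw [if_pos h, min_eq_right (by linarith)]
      push_cast
      ring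
    · rw [if_neg h, min_eq_left (by linarith)]
      have e1 : P τ - (ℓ : ℂ) * v = ((3 * (1 - τ) : ℝ) : ℂ) * (-(((ℓ - r0 / 2 : ℝ) : ℂ) * v)) := by
        rw [hP3 τ ⟨(not_le.1 h).le, hτ.2⟩]
        push_cast
        ring
      rw [e1]
      ring
  · intro τ hτ
    refine ⟨by rw [hPn τ hτ]; exact (hmn τ hτ).2.trans hl2, ?_⟩
    rcases le_total τ (1 / 3) with h | h
    · right
      obtain ⟨e1, e2⟩ := hm1 τ ⟨hτ.1, h⟩
      refine ⟨mm τ, (hmn τ hτ).1, ?_⟩
      rw [hP]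
      simp only
      rw [e2]
    · left
      rw [hPn τ hτ]
      rcases le_total τ (2 / 3) with h' | h'
      · rw [hm2 τ ⟨hτ.1, h'⟩, min_eq_right (by linarith)]
        linarith
      · rw [(hm3 τ ⟨h', hτ.2⟩).1]
        have e1 : 0 ≤ 3 * τ - 2 := by linarith
        have e3 : 0 ≤ ℓ - r0 / 2 := by linarith
        have e4 := mul_nonneg e3 e1
        linarith

/-! ### the homotopy -/

theorem ff_ne_zero_of_norm {s e x : ℂ} (h1 : x ≠ s) (h2 : x ≠ s - e) (h3 : x ≠ 1) (h4 : x ≠ -1) :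
    ff s e x ≠ 0 := by
  unfold ff
  refine mul_ne_zero (mul_ne_zero (sub_ne_zero.2 h1) (sub_ne_zero.2 h2))
    (mul_ne_zero (sub_ne_zero.2 h3) ?_)
  intro h
  exact h4 (eq_neg_of_add_eq_zero_left h)

theorem ne_of_norm_ne {a b : ℂ} (h : ‖a‖ ≠ ‖b‖) : a ≠ b := fun h' => h (by rw [h'])

theorem exp_arg_mul {ω : ℂ} (hω : ω ≠ 0) : exp ((ω.arg : ℂ) * I) = ω / (‖ω‖ : ℂ) := by
  have h : ((‖ω‖ : ℝ) : ℂ) ≠ 0 := by
    rw [Complex.ofReal_ne_zero, norm_ne_zero_iff]
    exact hω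
  rw [eq_div_iff h, mul_comm]
  exact Complex.norm_mul_exp_arg_mul_I ω

theorem im_exp_arg_mul {ω q : ℂ} (h : 0 < (ω * q).im) : 0 < (exp ((ω.arg : ℂ) * I) * q).im := by
  have hω : ω ≠ 0 := fun h0 => by rw [h0, zero_mul, zero_im] at h; exact lt_irrefl _ h
  have hn : 0 < ‖ω‖ := norm_pos_iff.2 hω
  rw [exp_arg_mul hω, div_mul_eq_mul_div]
  have e : ω * q / ((‖ω‖ : ℝ) : ℂ) = ((‖ω‖⁻¹ : ℝ) : ℂ) * (ω * q) := by
    push_cast
    rw [div_eq_inv_mul]
  rw [e, Complex.im_ofReal_mul]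
  positivity

/-- **the loop is freely homotopic to its reverse inside the fibre** -/
theorem fhom_reverse {F : MvPolynomial (Fin 5) ℂ} {ρ : Fin 5 → ℝ} (hρ : Adm F ρ) (θ₁ θ₂ : ℝ)
    {w X Y : ℝ → ℂ} (cw : Continuous w) (cX : Continuous X) (cY : Continuous Y)
    (pw : ∀ t, w (t + 1) = w t) (pX : ∀ t, X (t + 1) = X t) (pY : ∀ t, Y (t + 1) = Y t)
    (hw : ∀ t, w t ≠ 0) (hn : ∀ t, ‖X t‖ = ‖w t‖)
    (ew : ∀ t, w (-t) = w t) (eX : ∀ t, X (-t) = X t) (eY : ∀ t, Y (-t) = -Y t)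
    (ω : ℂ) (hω : ∀ t, 0 < (ω * (X t / w t)).im)
    (ok : ∀ t, SecOK (bT ρ θ₁ θ₂) (y0T (bT ρ θ₁ θ₂)) (y1T (bT ρ θ₁ θ₂)) (w t) (X t) (Y t)) :
    FHom (bT ρ θ₁ θ₂) (fun t => Total.mk (secCone _ _ _ _ _ _ (ok t)))
      (fun t => Total.mk (secCone _ _ _ _ _ _ (ok (-t)))) := by
  obtain ⟨b, hb⟩ : ∃ b, b = bT ρ θ₁ θ₂ := ⟨_, rfl⟩
  have nb := bT_norm_of_pos hρ.pos θ₁ θ₂
  have b0 : b 0 = (ρ 0 : ℂ) * exp (θ₁ * I) := by rw [hb]; rfl
  have b1 : b 1 = (ρ 1 : ℂ) := by rw [hb]; rfl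
  have b2 : b 2 = (ρ 2 : ℂ) * exp (θ₂ * I) := by rw [hb]; rfl
  have b3 : b 3 = (ρ 3 : ℂ) := by rw [hb]; rfl
  have b4 : b 4 = (ρ 4 : ℂ) := by rw [hb]; rfl
  rw [← hb] at nb
  have hbase : b ∈ BaseSet := by rw [hb]; exact (ok 0).1
  have q0 : y0T b ^ 2 = quartic b 0 1 0 := by rw [hb]; exact (ok 0).2.1
  have q1 : y1T b ^ 2 = quartic b 1 1 0 := by rw [hb]; exact (ok 0).2.2.1
  have hq2 : ∀ t, Y t ^ 2 = X t ^ 4 - w t ^ 4 := fun t => (ok t).2.2.2.2
  have ok' : ∀ t, SecOK b (y0T b) (y1T b) (w t) (X t) (Y t) := by rw [hb]; exact ok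
  have r0 := hρ.pos 0
  have r1 := hρ.pos 1
  have r2 := hρ.pos 2
  have r3 := hρ.pos 3
  have r4 := hρ.pos 4
  have a0 := hρ.h0
  have a1 := hρ.h1
  have a2 := hρ.h2
  have a3 := hρ.h3
  have a4 := hρ.h4
  have a4' := hρ.h4'
  have hX : ∀ t, X t ≠ 0 := fun t => norm_pos_iff.1 (by rw [hn t]; exact norm_pos_iff.2 (hw t))
  have hb4 : b 4 ≠ 0 := norm_pos_iff.1 (by rw [nb 4]; exact r4)
  have nq : ∀ t, ‖X t / w t‖ = 1 := fun t => by
    rw [norm_div, hn t, div_self (norm_pos_iff.2 (hw t)).ne']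
  have nb01 : ρ 0 - ρ 1 ≤ ‖b 0 - b 1‖ := by
    have := norm_sub_norm_le (b 0) (b 1)
    rw [nb 0, nb 1] at this
    exact this
  have nb23 : ρ 2 - ρ 3 ≤ ‖b 2 - b 3‖ := by
    have := norm_sub_norm_le (b 2) (b 3)
    rw [nb 2, nb 3] at this
    exact this
  have nb23' : ‖b 2 - b 3‖ ≤ ρ 2 + ρ 3 := by
    have := norm_sub_le (b 2) (b 3)
    rw [nb 2, nb 3] at this
    exact this
  -- the direction
  obtain ⟨ψ, hψ⟩ : ∃ ψ : ℝ, ∀ (t r : ℝ), 0 < r →
      ff (b 2) (b 3) ((r : ℂ) * (exp ((ψ : ℂ) * I) * (X t / w t))) ≠ 0 := by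
    have hi3 : (b 3).im = 0 := by rw [b3]; exact Complex.ofReal_im _
    rcases le_or_gt (b 2).im 0 with h | h
    · refine ⟨ω.arg, fun t r hr => ?_⟩
      have h1 := im_exp_arg_mul (hω t)
      have h2 : 0 < ((r : ℂ) * (exp ((ω.arg : ℂ) * I) * (X t / w t))).im := by
        rw [Complex.im_ofReal_mul]
        exact mul_pos hr h1
      refine ff_ne_zero_of_norm ?_ ?_ ?_ ?_
      · intro h3; rw [h3] at h2; linarith
      · intro h3; rw [h3, sub_im, hi3] at h2; linarith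
      · intro h3; rw [h3, one_im] at h2; linarith
      · intro h3; rw [h3, neg_im, one_im] at h2; linarith
    · refine ⟨(-ω).arg, fun t r hr => ?_⟩
      have h1 := im_exp_arg_mul (ω := -ω) (q := -(X t / w t)) (by
        rw [neg_mul_neg]
        exact hω t)
      rw [mul_neg, neg_im] at h1
      have h2 : ((r : ℂ) * (exp (((-ω).arg : ℂ) * I) * (X t / w t))).im < 0 := by
        rw [Complex.im_ofReal_mul]
        exact mul_neg_of_pos_of_neg hr (by linarith)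
      refine ff_ne_zero_of_norm ?_ ?_ ?_ ?_
      · intro h3; rw [h3] at h2; linarith
      · intro h3; rw [h3, sub_im, hi3] at h2; linarith
      · intro h3; rw [h3, one_im] at h2; linarith
      · intro h3; rw [h3, neg_im, one_im] at h2; linarith
  -- stage one
  obtain ⟨P, η, cP, cη, P0, η0, η1, hη, hP⟩ := exists_path (ψ := ψ) r1 a1 a0 (y0T b) (by
    rw [q0, quartic_zero_one, b0, b1])
  have hne1 : ∀ τ ∈ Set.Icc (0 : ℝ) 1, ∀ t,
      ff (b 2) (b 3) (P τ * X t / (b 4 * w t)) ≠ 0 := by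
    intro τ hτ t
    have e1 : P τ * X t / (b 4 * w t) = P τ / b 4 * (X t / w t) := by
      have := hw t
      field_simp
    rw [e1]
    rcases (hP τ hτ).2 with h | ⟨r, hr, h⟩
    · have hbig : 1 < ‖P τ / b 4 * (X t / w t)‖ := by
        rw [norm_mul, nq, mul_one, norm_div, nb 4, lt_div_iff₀ r4]
        linarith
      refine ff_ne_zero_of_norm ?_ ?_ ?_ ?_
      · refine ne_of_norm_ne ?_
        rw [nb 2]
        linarith
      · refine ne_of_norm_ne ?_
        linarith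
      · refine ne_of_norm_ne ?_
        rw [norm_one]
        linarith
      · refine ne_of_norm_ne ?_
        rw [norm_neg, norm_one]
        linarith
    · rcases hr.eq_or_lt with h0 | h0
      · rw [h, ← h0]
        simp only [Complex.ofReal_zero, zero_mul, zero_div]
        rw [← quartic_one_one, ← q1]
        refine pow_ne_zero 2 ?_
        unfold y1T
        have h2 : b 2 ≠ 0 := norm_pos_iff.1 (by rw [nb 2]; exact r2)
        refine mul_ne_zero (mul_ne_zero I_ne_zero h2) (csqrt_ne_zero_aux ?_)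
        intro h3
        have h4 : b 3 / b 2 = 1 := (sub_eq_zero.1 h3).symm
        have h5 := congrArg norm h4
        rw [norm_div, nb 2, nb 3, norm_one, div_eq_one_iff_eq r2.ne'] at h5
        linarith
      · have e2 : P τ / b 4 * (X t / w t) =
            ((r / ρ 4 : ℝ) : ℂ) * (exp ((ψ : ℂ) * I) * (X t / w t)) := by
          rw [h, b4]
          push_cast
          ring
        rw [e2]
        exact hψ t _ (div_pos h0 r4)
  have cx1 : ContinuousOn (fun p : ℝ × ℝ => P p.1 * X p.2 / (b 4 * w p.2))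
      (Set.Icc 0 1 ×ˢ Set.univ) := by
    refine ContinuousOn.div (ContinuousOn.mul ?_ (cX.comp continuous_snd).continuousOn)
      (continuous_const.mul (cw.comp continuous_snd)).continuousOn ?_
    · exact cP.comp (f := fun p : ℝ × ℝ => p.1) continuous_fst.continuousOn (fun p hp => hp.1)
    · intro p _
      exact mul_ne_zero hb4 (hw _)
  obtain ⟨Y1, cY1, pY1, hY1, Y10⟩ := Pool.Agent.helper84.K3B.sqrt_lift
    (F := fun τ t => ff (b 2) (b 3) (P τ * X t / (b 4 * w t))) (y₀ := fun _ => y1T b)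
    ((ff_continuous (b 2) (b 3)).comp_continuousOn cx1)
    (fun τ _ t => by rw [pX, pw]) hne1 continuous_const (fun _ => rfl) (fun t => by
      rw [P0, zero_mul, zero_div, q1, quartic_one_one])
  have okA : ∀ τ t, PtOK b (P (kf τ)) (fold η τ) (P (kf τ) * X t / (b 4 * w t)) (Y1 (kf τ) t)
      (w t) (X t) (Y t) := by
    intro τ t
    refine ⟨hbase, ?_, ?_, Or.inl (hw t), hq2 t, ?_⟩
    · rw [fold_sq, hη _ (kf_mem τ), quartic_zero_one, b0, b1]
    · rw [hY1 _ (kf_mem τ), quartic_one_one]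
    · have := hw t
      field_simp
  have ckf : Continuous fun p : ℝ × ℝ => kf p.1 := kf_continuous.comp continuous_fst
  have cPk : Continuous fun p : ℝ × ℝ => P (kf p.1) := cP.comp_continuous ckf fun p => kf_mem p.1
  have ckt : Continuous fun p : ℝ × ℝ => (kf p.1, p.2) := ckf.prodMk continuous_snd
  have hkt : ∀ p : ℝ × ℝ, (kf p.1, p.2) ∈ (Set.Icc (0 : ℝ) 1 ×ˢ Set.univ : Set (ℝ × ℝ)) :=
    fun p => ⟨kf_mem p.1, Set.mem_univ _⟩
  have HA := fhom_of (b := b) (x0 := fun τ _ => P (kf τ)) (y0 := fun τ _ => fold η τ)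
    (x1 := fun τ t => P (kf τ) * X t / (b 4 * w t)) (y1 := fun τ t => Y1 (kf τ) t)
    cPk ((fold_continuous cη η1).comp continuous_fst) (cx1.comp_continuous ckt hkt)
    (cY1.comp_continuous ckt hkt) cw cX cY (fun _ _ => rfl) (fun _ _ => rfl)
    (fun τ t => by rw [pX, pw]) (fun τ t => pY1 _ (kf_mem τ) t) pw pX pY okA
  -- stage two
  obtain ⟨Q, ζ, cQ, cζ, Q0, ζ0, ζ1, hζ, hQ⟩ := exists_path (ψ := 0) r3 a3 a2 (y1T b) (by
    rw [q1, quartic_one_one, b2, b3])
  have hne2 : ∀ τ ∈ Set.Icc (0 : ℝ) 1, ∀ t,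
      ff (b 0) (b 1) (b 4 * Q τ * w t / X t) ≠ 0 := by
    intro τ hτ t
    have hnorm : ‖b 4 * Q τ * w t / X t‖ ≤ ρ 4 * ρ 2 := by
      rw [norm_div, norm_mul, norm_mul, hn t, mul_div_assoc,
        div_self (norm_pos_iff.2 (hw t)).ne', mul_one, nb 4]
      exact mul_le_mul_of_nonneg_left (hQ τ hτ).1 r4.le
    have hsm : ρ 4 * ρ 2 < ρ 0 / 2 := by nlinarith
    refine ff_ne_zero_of_norm ?_ ?_ ?_ ?_
    · refine ne_of_norm_ne ?_
      rw [nb 0]
      linarith
    · refine ne_of_norm_ne ?_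
      linarith
    · refine ne_of_norm_ne ?_
      rw [norm_one]
      linarith
    · refine ne_of_norm_ne ?_
      rw [norm_neg, norm_one]
      linarith
  have cx0 : ContinuousOn (fun p : ℝ × ℝ => b 4 * Q p.1 * w p.2 / X p.2)
      (Set.Icc 0 1 ×ˢ Set.univ) := by
    refine ContinuousOn.div (ContinuousOn.mul (continuousOn_const.mul ?_)
      (cw.comp continuous_snd).continuousOn) (cX.comp continuous_snd).continuousOn ?_
    · exact cQ.comp (f := fun p : ℝ × ℝ => p.1) continuous_fst.continuousOn (fun p hp => hp.1)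
    · intro p _
      exact hX _
  obtain ⟨Y0, cY0, pY0, hY0, Y00⟩ := Pool.Agent.helper84.K3B.sqrt_lift
    (F := fun τ t => ff (b 0) (b 1) (b 4 * Q τ * w t / X t)) (y₀ := fun _ => -y0T b)
    ((ff_continuous (b 0) (b 1)).comp_continuousOn cx0)
    (fun τ _ t => by rw [pX, pw]) hne2 continuous_const (fun _ => rfl) (fun t => by
      rw [Q0, mul_zero, zero_mul, zero_div, neg_sq, q0, quartic_zero_one])
  have okB : ∀ τ t, PtOK b (b 4 * Q (kf τ) * w t / X t) (Y0 (kf τ) t) (Q (kf τ)) (fold ζ τ)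
      (w t) (X t) (Y t) := by
    intro τ t
    refine ⟨hbase, ?_, ?_, Or.inl (hw t), hq2 t, ?_⟩
    · rw [hY0 _ (kf_mem τ), quartic_zero_one]
    · rw [fold_sq, hζ _ (kf_mem τ), quartic_one_one, b2, b3]
    · have := hX t
      field_simp
  have cQk : Continuous fun p : ℝ × ℝ => Q (kf p.1) := cQ.comp_continuous ckf fun p => kf_mem p.1
  have HB := fhom_of (b := b) (x0 := fun τ t => b 4 * Q (kf τ) * w t / X t)
    (y0 := fun τ t => Y0 (kf τ) t) (x1 := fun τ _ => Q (kf τ)) (y1 := fun τ _ => fold ζ τ)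
    (cx0.comp_continuous ckt hkt) (cY0.comp_continuous ckt hkt) cQk
    ((fold_continuous cζ ζ1).comp continuous_fst) cw cX cY
    (fun τ t => by rw [pX, pw]) (fun τ t => pY0 _ (kf_mem τ) t) (fun _ _ => rfl)
    (fun _ _ => rfl) pw pX pY okB
  -- the joints
  have e1 : (fun t => Total.mk (ptCone b _ _ _ _ _ _ _ (okA 0 t))) =
      fun t => Total.mk (secCone b _ _ _ _ _ (ok' t)) := by
    funext t
    refine congrArg Total.mk (secCone_eq_ptCone (ok' t) (okA 0 t) ?_ ?_ ?_ ?_)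
    · rw [kf_zero, P0]
    · rw [fold_zero, η0]
    · rw [kf_zero, P0, zero_mul, zero_div]
    · rw [kf_zero, Y10]
  have e2 : (fun t => Total.mk (ptCone b _ _ _ _ _ _ _ (okA 1 t))) =
      fun t => Total.mk (ptCone b _ _ _ _ _ _ _ (okB 0 t)) := by
    funext t
    refine congrArg Total.mk (ptCone_congr (okA 1 t) (okB 0 t) ?_ ?_ ?_ ?_ rfl rfl rfl)
    · rw [kf_one, P0, kf_zero, Q0, mul_zero, zero_mul, zero_div]
    · rw [fold_one, η0, kf_zero, Y00]
    · rw [kf_one, P0, zero_mul, zero_div, kf_zero, Q0]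
    · rw [kf_one, Y10, fold_zero, ζ0]
  have e3 : (fun t => Total.mk (ptCone b _ _ _ _ _ _ _ (okB 1 t))) =
      fun t => Total.mk (secCone b _ _ _ _ _ (ok' (-t))) := by
    funext t
    refine Quotient.sound ?_
    refine ⟨rfl, fun _ => 1, -1, fun _ => one_ne_zero, Or.inr rfl, ?_⟩
    intro i
    fin_cases i
    · refine ⟨?_, ?_, ?_⟩
      · show (1 : ℂ) = 1 * 1
        norm_num
      · show (0 : ℂ) = 1 * (b 4 * Q (kf 1) * w t / X t)
        rw [kf_one, Q0, mul_zero, zero_mul, zero_div, mul_zero]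
      · show y0T b = -1 * (1 ^ 2 * Y0 (kf 1) t)
        rw [kf_one, Y00]
        ring
    · refine ⟨?_, ?_, ?_⟩
      · show (1 : ℂ) = 1 * 1
        norm_num
      · show (0 : ℂ) = 1 * Q (kf 1)
        rw [kf_one, Q0, mul_zero]
      · show y1T b = -1 * (1 ^ 2 * fold ζ 1)
        rw [fold_one, ζ0]
        ring
    · refine ⟨?_, ?_, ?_⟩
      · show w (-t) = 1 * w t
        rw [ew, one_mul]
      · show X (-t) = 1 * X t
        rw [eX, one_mul]
      · show Y (-t) = -1 * (1 ^ 2 * Y t)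
        rw [eY]
        ring
  rw [e1, e2] at HA
  rw [e3] at HB
  have H := HA.trans HB
  subst hb
  exact H

end TripleBurger
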