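import Mathlib

/-!
# MP_41ba4a_ag: periods of Alexander–Spanier 1-cocycles along loops

`ψ : X → X → ℚ` is a 1-cocycle near `x` when `ψ a b + ψ b c = ψ a c` on a neighbourhood of `x`.
The period along a loop `g : ℝ → X` (only `g 0 = g 1` is used) is the sum over a fine grid.
-/

namespace Pool.Agent.helper84.K3B

open Finset Topology

variable {X Y : Type*}

/-- `ψ` is additive on triples of points of `V` -/
def Add1 (ψ : X → X → ℚ) (V : Set X) : Prop :=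
  ∀ a ∈ V, ∀ b ∈ V, ∀ c ∈ V, ψ a b + ψ b c = ψ a c

theorem Add1.mono {ψ : X → X → ℚ} {V W : Set X} (h : Add1 ψ W) (hVW : V ⊆ W) : Add1 ψ V :=
  fun a ha b hb c hc => h a (hVW ha) b (hVW hb) c (hVW hc)

theorem Add1.self {ψ : X → X → ℚ} {V : Set X} (h : Add1 ψ V) {a : X} (ha : a ∈ V) :
    ψ a a = 0 := by
  have := h a ha a ha a ha
  linarith

theorem Add1.symm {ψ : X → X → ℚ} {V : Set X} (h : Add1 ψ V) {a b : X} (ha : a ∈ V)
    (hb : b ∈ V) : ψ b a = - ψ a b := by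
  have h1 := h a ha b hb a ha
  have h2 := h.self ha
  linarith

/-- telescoping -/
theorem Add1.sum {ψ : X → X → ℚ} {V : Set X} (h : Add1 ψ V) (a : ℕ → X) (M : ℕ)
    (ha : ∀ j ≤ M, a j ∈ V) : ∑ j ∈ range M, ψ (a j) (a (j + 1)) = ψ (a 0) (a M) := by
  induction M with
  | zero => rw [Finset.sum_range_zero, h.self (ha 0 le_rfl)]
  | succ M ih =>
    rw [Finset.sum_range_succ, ih fun j hj => ha j (hj.trans (Nat.le_succ M))]
    exact h _ (ha 0 (Nat.zero_le _)) _ (ha M (Nat.le_succ M)) _ (ha (M + 1) le_rfl)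

/-- `ψ` is a cocycle near `x` -/
def CocAt [TopologicalSpace X] (ψ : X → X → ℚ) (x : X) : Prop :=
  ∃ V, IsOpen V ∧ x ∈ V ∧ Add1 ψ V

/-- the sum of `ψ` over the grid with `N` arcs of the path `g` -/
noncomputable def perN (ψ : X → X → ℚ) (g : ℝ → X) (N : ℕ) : ℚ :=
  ∑ m ∈ range N, ψ (g ((m : ℝ) / N)) (g (((m : ℝ) + 1) / N))

/-- all arcs of the grid lie in sets on which `ψ` is additive -/
def GridGood (ψ : X → X → ℚ) (g : ℝ → X) (N : ℕ) : Prop :=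
  ∀ m < N, Add1 ψ (g '' Set.Icc ((m : ℝ) / N) (((m : ℝ) + 1) / N))

theorem sum_range_mul' (f : ℕ → ℚ) (N M : ℕ) :
    ∑ k ∈ range (N * M), f k = ∑ i ∈ range N, ∑ j ∈ range M, f (i * M + j) := by
  induction N with
  | zero => simp
  | succ N ih => rw [Nat.succ_mul, Finset.sum_range_add, ih, Finset.sum_range_succ]

/-- refinement of the grid -/
theorem perN_mul {ψ : X → X → ℚ} {g : ℝ → X} {N M : ℕ} (hN : 0 < N) (hM : 0 < M)
    (h : GridGood ψ g N) : perN ψ g (N * M) = perN ψ g N := by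
  have hN' : (0 : ℝ) < N := by exact_mod_cast hN
  have hM' : (0 : ℝ) < M := by exact_mod_cast hM
  unfold perN
  rw [sum_range_mul']
  refine Finset.sum_congr rfl fun i hi => ?_
  have hi' := Finset.mem_range.1 hi
  have h1 := (h i hi').sum (fun j => g (((i * M + j : ℕ) : ℝ) / ((N * M : ℕ) : ℝ))) M ?_
  · have e0 : (((i * M + 0 : ℕ) : ℝ) / ((N * M : ℕ) : ℝ)) = (i : ℝ) / N := by
      push_cast
      field_simp
      ring
    have e1 : (((i * M + M : ℕ) : ℝ) / ((N * M : ℕ) : ℝ)) = ((i : ℝ) + 1) / N := by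
      push_cast
      field_simp
    simp only [e0, e1] at h1
    rw [← h1]
    refine Finset.sum_congr rfl fun j _ => ?_
    have e2 : (((i * M + j : ℕ) : ℝ) + 1) / ((N * M : ℕ) : ℝ) =
        (((i * M + (j + 1) : ℕ) : ℝ) / ((N * M : ℕ) : ℝ)) := by
      push_cast
      ring
    rw [e2]
  · intro j hj
    refine ⟨_, ⟨?_, ?_⟩, rfl⟩
    · push_cast
      rw [div_le_div_iff₀ hN' (by positivity)]
      have : (0 : ℝ) ≤ (j : ℝ) * N := by positivity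
      nlinarith
    · push_cast
      rw [div_le_div_iff₀ (by positivity) hN']
      have hj' : (j : ℝ) ≤ M := by exact_mod_cast hj
      have : (j : ℝ) * N ≤ M * N := mul_le_mul_of_nonneg_right hj' hN'.le
      nlinarith

section top

variable [TopologicalSpace X]

/-- all sufficiently fine grids are good -/
theorem exists_gridGood {ψ : X → X → ℚ} {g : ℝ → X} (hg : Continuous g)
    (hψ : ∀ t ∈ Set.Icc (0 : ℝ) 1, CocAt ψ (g t)) :
    ∃ N0 : ℕ, 0 < N0 ∧ ∀ N ≥ N0, GridGood ψ g N := by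
  choose! V hV using hψ
  obtain ⟨δ, hδ, h⟩ := lebesgue_number_lemma_of_metric (s := Set.Icc (0 : ℝ) 1)
    (c := fun t : Set.Icc (0 : ℝ) 1 => g ⁻¹' V t) isCompact_Icc
    (fun t => (hV t t.2).1.preimage hg)
    (fun t ht => Set.mem_iUnion.2 ⟨⟨t, ht⟩, (hV t ht).2.1⟩)
  obtain ⟨n, hn⟩ := exists_nat_gt (1 / δ)
  refine ⟨n + 1, Nat.succ_pos n, fun N hN m hm => ?_⟩
  have hN0 : (0 : ℝ) < N := by
    have : 0 < N := lt_of_lt_of_le (Nat.succ_pos n) hN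
    exact_mod_cast this
  have hNδ : 1 / (N : ℝ) < δ := by
    have h1 : (n : ℝ) < N := by
      have : n < N := hN
      exact_mod_cast this
    rw [div_lt_iff₀ hN0]
    rw [div_lt_iff₀ hδ] at hn
    nlinarith
  have hmN : ((m : ℝ) + 1) ≤ N := by exact_mod_cast hm
  obtain ⟨t, ht⟩ := h ((m : ℝ) / N) ⟨by positivity, by
    rw [div_le_one hN0]; linarith⟩
  refine (hV t t.2).2.2.mono ?_
  rintro _ ⟨x, hx, rfl⟩
  refine ht ?_
  rw [Metric.mem_ball, Real.dist_eq, abs_lt]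
  have h1 : ((m : ℝ) + 1) / N = (m : ℝ) / N + 1 / N := by ring
  rw [h1] at hx
  constructor <;> linarith [hx.1, hx.2]

/-- the period of `ψ` along `g` -/
noncomputable def per (ψ : X → X → ℚ) (g : ℝ → X) : ℚ :=
  Classical.epsilon fun q => ∃ N0 : ℕ, ∀ N ≥ N0, perN ψ g N = q

omit [TopologicalSpace X] in
theorem per_eq_of_eventually {ψ : X → X → ℚ} {g : ℝ → X} {q : ℚ} {N0 : ℕ}
    (h : ∀ N ≥ N0, perN ψ g N = q) : per ψ g = q := by
  have h1 : ∃ q : ℚ, ∃ N0 : ℕ, ∀ N ≥ N0, perN ψ g N = q := ⟨q, N0, h⟩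
  obtain ⟨N1, h2⟩ := Classical.epsilon_spec h1
  have h3 := h2 (max N0 N1) (le_max_right _ _)
  have h4 := h (max N0 N1) (le_max_left _ _)
  unfold per
  rw [← h3, h4]

/-- **the period is the sum over any good grid** -/
theorem per_eq {ψ : X → X → ℚ} {g : ℝ → X} (hg : Continuous g)
    (hψ : ∀ t ∈ Set.Icc (0 : ℝ) 1, CocAt ψ (g t)) {N : ℕ} (hN : 0 < N)
    (h : GridGood ψ g N) : per ψ g = perN ψ g N := by
  obtain ⟨N0, hN0, h0⟩ := exists_gridGood hg hψ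
  refine per_eq_of_eventually (N0 := N0) fun M hM => ?_
  have hM0 : 0 < M := lt_of_lt_of_le hN0 hM
  rw [← perN_mul hM0 hN (h0 M hM), mul_comm, perN_mul hN hM0 h]

theorem per_spec {ψ : X → X → ℚ} {g : ℝ → X} (hg : Continuous g)
    (hψ : ∀ t ∈ Set.Icc (0 : ℝ) 1, CocAt ψ (g t)) :
    ∃ N0 : ℕ, 0 < N0 ∧ ∀ N ≥ N0, GridGood ψ g N ∧ per ψ g = perN ψ g N := by
  obtain ⟨N0, hN0, h0⟩ := exists_gridGood hg hψ
  exact ⟨N0, hN0, fun N hN => ⟨h0 N hN, per_eq hg hψ (lt_of_lt_of_le hN0 hN) (h0 N hN)⟩⟩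

/-- **homotopy invariance** (free homotopies of loops) -/
theorem per_homotopy {ψ : X → X → ℚ} {G : ℝ → ℝ → X} (hG : Continuous fun p : ℝ × ℝ => G p.1 p.2)
    (hper : ∀ τ ∈ Set.Icc (0 : ℝ) 1, G τ 1 = G τ 0)
    (hψ : ∀ τ ∈ Set.Icc (0 : ℝ) 1, ∀ t ∈ Set.Icc (0 : ℝ) 1, CocAt ψ (G τ t)) :
    per ψ (G 0) = per ψ (G 1) := by
  have hψ' : ∀ p ∈ Set.Icc (0 : ℝ) 1 ×ˢ Set.Icc (0 : ℝ) 1, CocAt ψ (G p.1 p.2) :=
    fun p hp => hψ p.1 hp.1 p.2 hp.2
  choose! V hV using hψ'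
  obtain ⟨δ, hδ, h⟩ := lebesgue_number_lemma_of_metric
    (s := Set.Icc (0 : ℝ) 1 ×ˢ Set.Icc (0 : ℝ) 1)
    (c := fun t : (Set.Icc (0 : ℝ) 1 ×ˢ Set.Icc (0 : ℝ) 1 : Set (ℝ × ℝ)) =>
      (fun p : ℝ × ℝ => G p.1 p.2) ⁻¹' V t) (isCompact_Icc.prod isCompact_Icc)
    (fun t => (hV t t.2).1.preimage hG)
    (fun t ht => Set.mem_iUnion.2 ⟨⟨t, ht⟩, (hV t ht).2.1⟩)
  obtain ⟨n, hn⟩ := exists_nat_gt (1 / δ)
  obtain ⟨N, hNd⟩ : ∃ N : ℕ, N = n + 1 := ⟨_, rfl⟩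
  have hN0' : 0 < N := by omega
  have hN0 : (0 : ℝ) < N := by exact_mod_cast hN0'
  have hNδ : 1 / (N : ℝ) < δ := by
    have h1 : (n : ℝ) < N := by
      have : n < N := by omega
      exact_mod_cast this
    rw [div_lt_iff₀ hN0]
    rw [div_lt_iff₀ hδ] at hn
    nlinarith
  -- the small squares are good
  have hsq : ∀ i < N, ∀ m < N, Add1 ψ ((fun p : ℝ × ℝ => G p.1 p.2) ''
      (Set.Icc ((i : ℝ) / N) (((i : ℝ) + 1) / N) ×ˢ
        Set.Icc ((m : ℝ) / N) (((m : ℝ) + 1) / N))) := by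
    intro i hi m hm
    have hiN : ((i : ℝ) + 1) ≤ N := by exact_mod_cast hi
    have hmN : ((m : ℝ) + 1) ≤ N := by exact_mod_cast hm
    obtain ⟨t, ht⟩ := h ((i : ℝ) / N, (m : ℝ) / N) ⟨⟨by positivity, by
      rw [div_le_one hN0]; linarith⟩, ⟨by positivity, by
      rw [div_le_one hN0]; linarith⟩⟩
    refine (hV t t.2).2.2.mono ?_
    rintro _ ⟨x, hx, rfl⟩
    refine ht ?_
    have h1 : ((m : ℝ) + 1) / N = (m : ℝ) / N + 1 / N := by ring
    have h2 : ((i : ℝ) + 1) / N = (i : ℝ) / N + 1 / N := by ring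
    rw [h1, h2] at hx
    obtain ⟨hx1, hx2⟩ := hx
    rw [Metric.mem_ball, Prod.dist_eq, max_lt_iff, Real.dist_eq, Real.dist_eq, abs_lt, abs_lt]
    refine ⟨⟨?_, ?_⟩, ?_, ?_⟩ <;> linarith [hx1.1, hx1.2, hx2.1, hx2.2]
  -- one step
  have hstep : ∀ i < N, perN ψ (G ((i : ℝ) / N)) N = perN ψ (G (((i : ℝ) + 1) / N)) N := by
    intro i hi
    have hiN : ((i : ℝ) + 1) ≤ N := by exact_mod_cast hi
    have hle : (i : ℝ) / N ≤ ((i : ℝ) + 1) / N := by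
      rw [div_le_div_iff_of_pos_right hN0]; linarith
    have h1 : ∀ m < N, ψ (G ((i : ℝ) / N) ((m : ℝ) / N)) (G ((i : ℝ) / N) (((m : ℝ) + 1) / N)) -
        ψ (G (((i : ℝ) + 1) / N) ((m : ℝ) / N)) (G (((i : ℝ) + 1) / N) (((m : ℝ) + 1) / N)) =
        ψ (G ((i : ℝ) / N) ((m : ℝ) / N)) (G (((i : ℝ) + 1) / N) ((m : ℝ) / N)) -
        ψ (G ((i : ℝ) / N) (((m + 1 : ℕ) : ℝ) / N))
          (G (((i : ℝ) + 1) / N) (((m + 1 : ℕ) : ℝ) / N)) := by
      intro m hm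
      have hlm : (m : ℝ) / N ≤ ((m : ℝ) + 1) / N := by
        rw [div_le_div_iff_of_pos_right hN0]; linarith
      have hg := hsq i hi m hm
      have m00 : G ((i : ℝ) / N) ((m : ℝ) / N) ∈ ((fun p : ℝ × ℝ => G p.1 p.2) ''
          (Set.Icc ((i : ℝ) / N) (((i : ℝ) + 1) / N) ×ˢ
          Set.Icc ((m : ℝ) / N) (((m : ℝ) + 1) / N))) :=
        ⟨(_, _), ⟨⟨le_rfl, hle⟩, ⟨le_rfl, hlm⟩⟩, rfl⟩
      have m10 : G (((i : ℝ) + 1) / N) ((m : ℝ) / N) ∈ ((fun p : ℝ × ℝ => G p.1 p.2) ''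
          (Set.Icc ((i : ℝ) / N) (((i : ℝ) + 1) / N) ×ˢ
          Set.Icc ((m : ℝ) / N) (((m : ℝ) + 1) / N))) :=
        ⟨(_, _), ⟨⟨hle, le_rfl⟩, ⟨le_rfl, hlm⟩⟩, rfl⟩
      have m01 : G ((i : ℝ) / N) (((m : ℝ) + 1) / N) ∈ ((fun p : ℝ × ℝ => G p.1 p.2) ''
          (Set.Icc ((i : ℝ) / N) (((i : ℝ) + 1) / N) ×ˢ
          Set.Icc ((m : ℝ) / N) (((m : ℝ) + 1) / N))) :=
        ⟨(_, _), ⟨⟨le_rfl, hle⟩, ⟨hlm, le_rfl⟩⟩, rfl⟩
      have m11 : G (((i : ℝ) + 1) / N) (((m : ℝ) + 1) / N) ∈ ((fun p : ℝ × ℝ => G p.1 p.2) ''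
          (Set.Icc ((i : ℝ) / N) (((i : ℝ) + 1) / N) ×ˢ
          Set.Icc ((m : ℝ) / N) (((m : ℝ) + 1) / N))) :=
        ⟨(_, _), ⟨⟨hle, le_rfl⟩, ⟨hlm, le_rfl⟩⟩, rfl⟩
      have e1 := hg _ m00 _ m01 _ m11
      have e2 := hg _ m00 _ m10 _ m11
      push_cast
      linarith
    unfold perN
    rw [← sub_eq_zero, ← Finset.sum_sub_distrib,
      Finset.sum_congr rfl fun m hm => h1 m (Finset.mem_range.1 hm)]
    rw [Finset.sum_range_sub' (fun m : ℕ => ψ (G ((i : ℝ) / N) ((m : ℝ) / N))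
      (G (((i : ℝ) + 1) / N) ((m : ℝ) / N)))]
    have e3 : ((N : ℕ) : ℝ) / N = 1 := div_self hN0.ne'
    have e4 : ((0 : ℕ) : ℝ) / N = 0 := by simp
    rw [e3, e4, hper _ ⟨by positivity, by rw [div_le_one hN0]; linarith⟩,
      hper _ ⟨by positivity, by rw [div_le_one hN0]; linarith⟩, sub_self]
  have hall : ∀ i ≤ N, perN ψ (G 0) N = perN ψ (G ((i : ℝ) / N)) N := by
    intro i
    induction i with
    | zero => intro _; simp
    | succ i ih =>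
      intro hi
      rw [ih (by omega), hstep i (by omega)]
      push_cast
      rfl
  have hlast := hall N le_rfl
  rw [div_self hN0.ne'] at hlast
  have c0 : Continuous (G 0) := hG.comp (continuous_const.prodMk continuous_id)
  have c1 : Continuous (G 1) := hG.comp (continuous_const.prodMk continuous_id)
  have z0 : (0 : ℝ) ∈ Set.Icc (0 : ℝ) 1 := ⟨le_rfl, zero_le_one⟩
  have z1 : (1 : ℝ) ∈ Set.Icc (0 : ℝ) 1 := ⟨zero_le_one, le_rfl⟩
  have g0 : GridGood ψ (G 0) N := by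
    intro m hm
    refine (hsq 0 hN0' m hm).mono ?_
    rintro _ ⟨x, hx, rfl⟩
    refine ⟨(0, x), ⟨⟨by simp, by positivity⟩, hx⟩, rfl⟩
  have g1 : GridGood ψ (G 1) N := by
    intro m hm
    refine (hsq (N - 1) (by omega) m hm).mono ?_
    rintro _ ⟨x, hx, rfl⟩
    have e5 : (((N - 1 : ℕ) : ℝ) + 1) = N := by
      have : (N - 1) + 1 = N := by omega
      exact_mod_cast this
    refine ⟨(1, x), ⟨⟨?_, ?_⟩, hx⟩, rfl⟩
    · simp only
      rw [div_le_one hN0]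
      linarith
    · simp only
      rw [e5, div_self hN0.ne']
  rw [per_eq c0 (fun t ht => hψ 0 z0 t ht) hN0' g0, per_eq c1 (fun t ht => hψ 1 z1 t ht) hN0' g1,
    hlast]

/-- homotopy invariance, homotopy defined on `[0,1] × ℝ` only -/
theorem per_homotopyOn {ψ : X → X → ℚ} {G : ℝ → ℝ → X}
    (hG : ContinuousOn (fun p : ℝ × ℝ => G p.1 p.2) (Set.Icc 0 1 ×ˢ Set.univ))
    (hper : ∀ τ ∈ Set.Icc (0 : ℝ) 1, G τ 1 = G τ 0)
    (hψ : ∀ τ ∈ Set.Icc (0 : ℝ) 1, ∀ t ∈ Set.Icc (0 : ℝ) 1, CocAt ψ (G τ t)) :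
    per ψ (G 0) = per ψ (G 1) := by
  have hpr : ∀ τ ∈ Set.Icc (0 : ℝ) 1, ((Set.projIcc (0 : ℝ) 1 zero_le_one τ : Set.Icc (0:ℝ) 1) : ℝ) = τ := by
    intro τ hτ
    rw [Set.projIcc_of_mem zero_le_one hτ]
  have h := per_homotopy (ψ := ψ)
    (G := fun τ t => G (Set.projIcc (0 : ℝ) 1 zero_le_one τ : Set.Icc (0:ℝ) 1) t) ?_ ?_ ?_
  · rwa [hpr 0 ⟨le_rfl, zero_le_one⟩, hpr 1 ⟨zero_le_one, le_rfl⟩] at h
  · refine hG.comp_continuous (f := fun p : ℝ × ℝ =>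
      (((Set.projIcc (0 : ℝ) 1 zero_le_one p.1 : Set.Icc (0:ℝ) 1) : ℝ), p.2)) ?_ ?_
    · exact (continuous_subtype_val.comp (continuous_projIcc.comp continuous_fst)).prodMk
        continuous_snd
    · intro p
      exact ⟨(Set.projIcc (0 : ℝ) 1 zero_le_one p.1).2, Set.mem_univ _⟩
  · intro τ _
    exact hper _ (Set.projIcc (0 : ℝ) 1 zero_le_one τ).2
  · intro τ _ t ht
    exact hψ _ (Set.projIcc (0 : ℝ) 1 zero_le_one τ).2 t ht

/-- reversing the loop changes the sign -/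
theorem per_reverse {ψ : X → X → ℚ} {g : ℝ → X} (hg : Continuous g)
    (hψ : ∀ t ∈ Set.Icc (0 : ℝ) 1, CocAt ψ (g t)) :
    per ψ (fun t => g (1 - t)) = - per ψ g := by
  obtain ⟨N0, hN0, h0⟩ := per_spec hg hψ
  refine per_eq_of_eventually (N0 := N0) fun N hN => ?_
  obtain ⟨h1, h2⟩ := h0 N hN
  have hNp : 0 < N := lt_of_lt_of_le hN0 hN
  have hNr : (0 : ℝ) < N := by exact_mod_cast hNp
  rw [h2]
  unfold perN
  rw [← Finset.sum_range_reflect, ← Finset.sum_neg_distrib]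
  refine Finset.sum_congr rfl fun m hm => ?_
  have hm' := Finset.mem_range.1 hm
  have e1 : (((N - 1 - m : ℕ) : ℝ)) = N - 1 - m := by
    rw [Nat.cast_sub (by omega), Nat.cast_sub (by omega)]
    simp
  have e2 : 1 - (((N - 1 - m : ℕ) : ℝ)) / N = ((m : ℝ) + 1) / N := by
    rw [e1]; field_simp; ring
  have e3 : 1 - ((((N - 1 - m : ℕ) : ℝ)) + 1) / N = (m : ℝ) / N := by
    rw [e1]; field_simp; ring
  change ψ (g (1 - (((N - 1 - m : ℕ) : ℝ)) / N)) (g (1 - ((((N - 1 - m : ℕ) : ℝ)) + 1) / N)) = _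
  rw [e2, e3]
  have hle : (m : ℝ) / N ≤ ((m : ℝ) + 1) / N := by
    rw [div_le_div_iff_of_pos_right hNr]; linarith
  exact (h1 m hm').symm ⟨_, ⟨le_rfl, hle⟩, rfl⟩ ⟨_, ⟨hle, le_rfl⟩, rfl⟩

/-- moving the base point -/
theorem per_shift {ψ : X → X → ℚ} {g : ℝ → X} (hg : Continuous g) (hp : ∀ t, g (t + 1) = g t)
    (hψ : ∀ t, CocAt ψ (g t)) (c : ℝ) : per ψ (fun t => g (t + c)) = per ψ g := by
  have h := per_homotopy (ψ := ψ) (G := fun τ t => g (t + τ * c))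
    (hg.comp (continuous_snd.add (continuous_fst.mul continuous_const)))
    (fun τ _ => by
      have : (1 : ℝ) + τ * c = (0 + τ * c) + 1 := by ring
      rw [this, hp])
    (fun τ _ t _ => hψ _)
  simp only [zero_mul, add_zero, one_mul] at h
  exact h.symm

/-- the period of the reversed loop `t ↦ g (-t)` -/
theorem per_neg_arg {ψ : X → X → ℚ} {g : ℝ → X} (hg : Continuous g) (hp : ∀ t, g (t + 1) = g t)
    (hψ : ∀ t, CocAt ψ (g t)) : per ψ (fun t => g (-t)) = - per ψ g := by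
  rw [← per_reverse hg fun t _ => hψ t]
  congr 1
  funext t
  have : (1 : ℝ) - t = -t + 1 := by ring
  rw [this, hp]

/-- a loop which is homotopic to its reverse has period zero -/
theorem per_eq_zero_of_homotopic_reverse {ψ : X → X → ℚ} {G : ℝ → ℝ → X}
    (hG : ContinuousOn (fun p : ℝ × ℝ => G p.1 p.2) (Set.Icc 0 1 ×ˢ Set.univ))
    (hper : ∀ τ ∈ Set.Icc (0 : ℝ) 1, ∀ t, G τ (t + 1) = G τ t)
    (hψ : ∀ τ ∈ Set.Icc (0 : ℝ) 1, ∀ t, CocAt ψ (G τ t))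
    (hrev : ∀ t, G 1 t = G 0 (-t)) : per ψ (G 0) = 0 := by
  have z0 : (0 : ℝ) ∈ Set.Icc (0 : ℝ) 1 := ⟨le_rfl, zero_le_one⟩
  have h1 := per_homotopyOn hG (fun τ hτ => by simpa using hper τ hτ 0)
    (fun τ hτ t _ => hψ τ hτ t)
  have c0 : Continuous (G 0) := hG.comp_continuous
    (f := fun t : ℝ => ((0 : ℝ), t)) (continuous_const.prodMk continuous_id)
    (fun t => ⟨z0, Set.mem_univ _⟩)
  have h2 : G 1 = fun t => G 0 (-t) := funext hrev
  rw [h2, per_neg_arg c0 (hper 0 z0) (hψ 0 z0)] at h1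
  linarith

/-- additivity -/
theorem per_add {ψ ψ' : X → X → ℚ} {g : ℝ → X} (hg : Continuous g)
    (hψ : ∀ t ∈ Set.Icc (0 : ℝ) 1, CocAt ψ (g t)) (hψ' : ∀ t ∈ Set.Icc (0 : ℝ) 1, CocAt ψ' (g t)) :
    per (fun a b => ψ a b + ψ' a b) g = per ψ g + per ψ' g := by
  obtain ⟨N0, hN0, h0⟩ := per_spec hg hψ
  obtain ⟨N1, hN1, h1⟩ := per_spec hg hψ'
  refine per_eq_of_eventually (N0 := max N0 N1) fun N hN => ?_
  rw [(h0 N (le_of_max_le_left hN)).2, (h1 N (le_of_max_le_right hN)).2]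
  unfold perN
  rw [← Finset.sum_add_distrib]

theorem per_smul {ψ : X → X → ℚ} {g : ℝ → X} (hg : Continuous g)
    (hψ : ∀ t ∈ Set.Icc (0 : ℝ) 1, CocAt ψ (g t)) (r : ℚ) :
    per (fun a b => r * ψ a b) g = r * per ψ g := by
  obtain ⟨N0, hN0, h0⟩ := per_spec hg hψ
  refine per_eq_of_eventually (N0 := N0) fun N hN => ?_
  rw [(h0 N hN).2]
  unfold perN
  rw [Finset.mul_sum]

omit [TopologicalSpace X] in
/-- coboundaries have period zero -/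
theorem per_coboundary (f : X → ℚ) {g : ℝ → X} (h1 : g 1 = g 0) :
    per (fun a b => f b - f a) g = 0 := by
  refine per_eq_of_eventually (N0 := 1) fun N hN => ?_
  have hNr : (0 : ℝ) < N := by
    have : 0 < N := hN
    exact_mod_cast this
  unfold perN
  have e : ∀ m : ℕ, f (g (((m : ℝ) + 1) / N)) - f (g ((m : ℝ) / N)) =
      f (g (((m + 1 : ℕ) : ℝ) / N)) - f (g ((m : ℝ) / N)) := by
    intro m; push_cast; rfl
  simp only [e]
  rw [Finset.sum_range_sub (fun m : ℕ => f (g ((m : ℝ) / N)))]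
  rw [div_self hNr.ne', Nat.cast_zero, zero_div, h1, sub_self]

/-- two functions which agree near the diagonal have the same periods -/
theorem per_congr {ψ ψ' : X → X → ℚ} {g : ℝ → X} (hg : Continuous g)
    (hψ : ∀ t ∈ Set.Icc (0 : ℝ) 1, ∃ V, IsOpen V ∧ g t ∈ V ∧ ∀ a ∈ V, ∀ b ∈ V, ψ a b = ψ' a b) :
    ∃ N0 : ℕ, 0 < N0 ∧ ∀ N ≥ N0, perN ψ g N = perN ψ' g N := by
  choose! V hV using hψ
  obtain ⟨δ, hδ, h⟩ := lebesgue_number_lemma_of_metric (s := Set.Icc (0 : ℝ) 1)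
    (c := fun t : Set.Icc (0 : ℝ) 1 => g ⁻¹' V t) isCompact_Icc
    (fun t => (hV t t.2).1.preimage hg)
    (fun t ht => Set.mem_iUnion.2 ⟨⟨t, ht⟩, (hV t ht).2.1⟩)
  obtain ⟨n, hn⟩ := exists_nat_gt (1 / δ)
  refine ⟨n + 1, Nat.succ_pos n, fun N hN => ?_⟩
  have hN0 : (0 : ℝ) < N := by
    have : 0 < N := lt_of_lt_of_le (Nat.succ_pos n) hN
    exact_mod_cast this
  have hNδ : 1 / (N : ℝ) < δ := by
    have h1 : (n : ℝ) < N := by
      have : n < N := hN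
      exact_mod_cast this
    rw [div_lt_iff₀ hN0]
    rw [div_lt_iff₀ hδ] at hn
    nlinarith
  unfold perN
  refine Finset.sum_congr rfl fun m hm => ?_
  have hmN : ((m : ℝ) + 1) ≤ N := by exact_mod_cast Finset.mem_range.1 hm
  obtain ⟨t, ht⟩ := h ((m : ℝ) / N) ⟨by positivity, by
    rw [div_le_one hN0]; linarith⟩
  refine (hV t t.2).2.2 _ (ht ?_) _ (ht ?_)
  · exact Metric.mem_ball_self hδ
  · rw [Metric.mem_ball, Real.dist_eq, abs_lt]
    have h1 : ((m : ℝ) + 1) / N = (m : ℝ) / N + 1 / N := by ring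
    have h2 : 0 < 1 / (N : ℝ) := by positivity
    rw [h1]
    constructor <;> linarith

theorem per_congr' {ψ ψ' : X → X → ℚ} {g : ℝ → X} (hg : Continuous g)
    (hc : ∀ t ∈ Set.Icc (0 : ℝ) 1, CocAt ψ' (g t))
    (hψ : ∀ t ∈ Set.Icc (0 : ℝ) 1, ∃ V, IsOpen V ∧ g t ∈ V ∧ ∀ a ∈ V, ∀ b ∈ V, ψ a b = ψ' a b) :
    per ψ g = per ψ' g := by
  obtain ⟨N0, hN0, h0⟩ := per_congr hg hψ
  obtain ⟨N1, hN1, h1⟩ := per_spec hg hc
  refine per_eq_of_eventually (N0 := max N0 N1) fun N hN => ?_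
  rw [h0 N (le_of_max_le_left hN), (h1 N (le_of_max_le_right hN)).2]

end top

/-- naturality -/
theorem per_comp (f : X → Y) (ψ : Y → Y → ℚ) (g : ℝ → X) :
    per ψ (fun t => f (g t)) = per (fun a b => ψ (f a) (f b)) g := rfl

theorem CocAt.comp [TopologicalSpace X] [TopologicalSpace Y] {f : X → Y} {ψ : Y → Y → ℚ} {x : X}
    (hf : Continuous f) (h : CocAt ψ (f x)) : CocAt (fun a b => ψ (f a) (f b)) x := by
  obtain ⟨V, hV, hx, hA⟩ := h
  exact ⟨f ⁻¹' V, hV.preimage hf, hx, fun a ha b hb c hc => hA _ ha _ hb _ hc⟩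

end Pool.Agent.helper84.K3B
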