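import Mathlib

/-!
# MP_41ba4a_ag: hierarchical radii

A nonzero polynomial in `n` complex variables does not vanish on a torus `|z i| = r i` when the
radii `r 0, r 1, …` are chosen one after the other, each sufficiently small with respect to the
previous ones.
-/

namespace Pool.Agent.helper84.K3B

open MvPolynomial Filter Topology

/-- the compact torus with given radii -/
theorem isCompact_torus {n : ℕ} (r : Fin n → ℝ) :
    IsCompact {s : Fin n → ℂ | ∀ i, ‖s i‖ = r i} := by
  have h : {s : Fin n → ℂ | ∀ i, ‖s i‖ = r i} = Set.pi Set.univ fun i => Metric.sphere (0 : ℂ) (r i) := by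
    ext s
    simp
  rw [h]
  exact isCompact_univ_pi fun i => isCompact_sphere 0 (r i)

/-- **hierarchical radii**: each radius is smaller than a prescribed positive bound which depends
on the previous radii, and the polynomial has no zero on the torus. -/
theorem radii : ∀ (n : ℕ) (F : MvPolynomial (Fin n) ℂ), F ≠ 0 →
    ∀ δ : (k : ℕ) → (Fin k → ℝ) → ℝ, (∀ k r, 0 < δ k r) →
    ∃ r : Fin n → ℝ,
      (∀ i : Fin n, 0 < r i ∧ r i < δ i (fun j : Fin i.val => r ⟨j.val, j.2.trans i.2⟩)) ∧
      ∀ z : Fin n → ℂ, (∀ i, ‖z i‖ = r i) → MvPolynomial.eval z F ≠ 0 := by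
  intro n
  induction n with
  | zero =>
    intro F hF δ hδ
    refine ⟨Fin.elim0, fun i => i.elim0, fun z _ h => hF ?_⟩
    rw [MvPolynomial.eq_C_of_isEmpty F] at h ⊢
    rw [MvPolynomial.eval_C] at h
    rw [h, MvPolynomial.C_0]
  | succ n ih =>
    intro F hF δ hδ
    -- move the last variable to the front
    obtain ⟨G, hG⟩ : ∃ G, G = MvPolynomial.rename (finRotate (n + 1)) F := ⟨_, rfl⟩
    have hG0 : G ≠ 0 := by
      rw [hG]
      intro h
      exact hF ((MvPolynomial.rename_injective _ (finRotate (n + 1)).injective) (by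
        rw [h, map_zero]))
    obtain ⟨p, hp⟩ : ∃ p, p = MvPolynomial.finSuccEquiv ℂ n G := ⟨_, rfl⟩
    have hp0 : p ≠ 0 := by
      rw [hp]
      intro h
      exact hG0 ((MvPolynomial.finSuccEquiv ℂ n).injective (by rw [h, map_zero]))
    obtain ⟨q, hq⟩ : (Polynomial.X : Polynomial (MvPolynomial (Fin n) ℂ)) ^ p.natTrailingDegree ∣ p := by
      rw [Polynomial.X_pow_dvd_iff]
      intro d hd
      exact Polynomial.coeff_eq_zero_of_lt_natTrailingDegree hd
    have hq0 : q.coeff 0 ≠ 0 := by
      have h1 : p.coeff p.natTrailingDegree = q.coeff 0 := by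
        have h2 := congrArg (fun t => Polynomial.coeff t p.natTrailingDegree) hq
        rw [h2, Polynomial.coeff_X_pow_mul', if_pos le_rfl, Nat.sub_self]
      rw [← h1]
      exact Polynomial.trailingCoeff_nonzero_iff_nonzero.2 hp0
    obtain ⟨r', hr', hne⟩ := ih (q.coeff 0) hq0 δ hδ
    -- the tube lemma
    have hcont : Continuous fun a : (Fin n → ℂ) × ℂ =>
        Polynomial.eval a.2 (Polynomial.map (MvPolynomial.eval a.1) q) := by
      have h1 : (fun a : (Fin n → ℂ) × ℂ =>
          Polynomial.eval a.2 (Polynomial.map (MvPolynomial.eval a.1) q)) =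
          fun a => ∑ k ∈ q.support, MvPolynomial.eval a.1 (q.coeff k) * a.2 ^ k := by
        funext a
        rw [Polynomial.eval_map, Polynomial.eval₂_eq_sum, Polynomial.sum_def]
      rw [h1]
      refine continuous_finsetSum _ fun k _ => ?_
      exact ((MvPolynomial.continuous_eval (q.coeff k)).comp continuous_fst).mul
        (continuous_snd.pow k)
    have hev : ∀ᶠ y in 𝓝 (0 : ℂ), ∀ s ∈ {s : Fin n → ℂ | ∀ i, ‖s i‖ = r' i},
        Polynomial.eval y (Polynomial.map (MvPolynomial.eval s) q) ≠ 0 := by
      refine (isCompact_torus r').eventually_forall_of_forall_eventually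
        (P := fun y s => Polynomial.eval y (Polynomial.map (MvPolynomial.eval s) q) ≠ 0) ?_
      intro s hs
      have h1 : Polynomial.eval ((s, (0 : ℂ)) : (Fin n → ℂ) × ℂ).2
          (Polynomial.map (MvPolynomial.eval ((s, (0 : ℂ)) : (Fin n → ℂ) × ℂ).1) q) ≠ 0 := by
        simp only
        rw [← Polynomial.coeff_zero_eq_eval_zero, Polynomial.coeff_map]
        exact hne s hs
      have h2 := (hcont.tendsto (s, (0 : ℂ))).eventually_ne h1
      rw [nhds_swap]
      exact h2
    obtain ⟨ε, hε, hball⟩ := Metric.eventually_nhds_iff.1 hev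
    obtain ⟨ρ, hρ⟩ : ∃ ρ : ℝ, ρ = min (ε / 2) (δ n r' / 2) := ⟨_, rfl⟩
    have hρ0 : 0 < ρ := by
      rw [hρ]
      exact lt_min (by linarith) (by linarith [hδ n r'])
    have hρε : ρ < ε := by
      rw [hρ]
      exact lt_of_le_of_lt (min_le_left _ _) (by linarith)
    have hρδ : ρ < δ n r' := by
      rw [hρ]
      exact lt_of_le_of_lt (min_le_right _ _) (by linarith [hδ n r'])
    refine ⟨Fin.snoc (α := fun _ => ℝ) r' ρ, ?_, ?_⟩
    · intro i
      refine Fin.lastCases ?_ ?_ i
      · rw [Fin.snoc_last]
        refine ⟨hρ0, ?_⟩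
        have h1 : (fun j : Fin (Fin.last n).val =>
            (Fin.snoc (α := fun _ => ℝ) r' ρ : Fin (n + 1) → ℝ)
              ⟨j.val, j.2.trans (Fin.last n).2⟩) = r' := by
          funext j
          exact Fin.snoc_castSucc (α := fun _ => ℝ) ρ r' j
        rw [h1]
        exact hρδ
      · intro j
        rw [Fin.snoc_castSucc]
        refine ⟨(hr' j).1, ?_⟩
        have h1 : (fun k : Fin (Fin.castSucc j).val =>
            (Fin.snoc (α := fun _ => ℝ) r' ρ : Fin (n + 1) → ℝ)
              ⟨k.val, k.2.trans (Fin.castSucc j).2⟩) =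
            fun k : Fin j.val => r' ⟨k.val, k.2.trans j.2⟩ := by
          funext k
          exact Fin.snoc_castSucc (α := fun _ => ℝ) ρ r' ⟨k.val, k.2.trans j.2⟩
        rw [h1]
        exact (hr' j).2
    · intro z hz
      have hz1 : ‖z (Fin.last n)‖ = ρ := by
        have := hz (Fin.last n)
        rwa [Fin.snoc_last] at this
      have hz2 : ∀ i : Fin n, ‖z (Fin.castSucc i)‖ = r' i := by
        intro i
        have := hz (Fin.castSucc i)
        rwa [Fin.snoc_castSucc] at this
      obtain ⟨s, hs⟩ : ∃ s : Fin n → ℂ, s = fun i => z (Fin.castSucc i) := ⟨_, rfl⟩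
      have h1 : MvPolynomial.eval z F =
          MvPolynomial.eval (Fin.cons (z (Fin.last n)) s : Fin (n + 1) → ℂ) G := by
        rw [hG, MvPolynomial.eval_rename]
        congr 1
        congr 1
        funext i
        refine Fin.lastCases ?_ ?_ i
        · simp only [Function.comp]
          rw [finRotate_last]
          rfl
        · intro j
          simp only [Function.comp]
          have : finRotate (n + 1) (Fin.castSucc j) = Fin.succ j := by
            rw [finRotate_apply]
            exact (Fin.coeSucc_eq_succ (a := j))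
          rw [this, Fin.cons_succ, hs]
      rw [h1, MvPolynomial.eval_eq_eval_mv_eval', ← hp, hq, Polynomial.map_mul, Polynomial.map_pow,
        Polynomial.map_X, Polynomial.eval_mul, Polynomial.eval_pow, Polynomial.eval_X]
      refine mul_ne_zero (pow_ne_zero _ ?_) ?_
      · intro h0
        rw [h0, norm_zero] at hz1
        linarith
      · refine hball (y := z (Fin.last n)) ?_ s ?_
        · rw [dist_zero_right, hz1]
          exact hρε
        · intro i
          rw [hs]
          exact hz2 i

end Pool.Agent.helper84.K3B
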