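import Pool.Agent.helper10.K3B.Def

/-!
# K3B: the fibres are smooth

At every point of `Cone` the four equations `Y_i² = quartic b i W_i X_i`,
`X₀ X₂ W₁ = μ X₁ W₀ W₂` have linearly independent differentials, and not all `Y_i` vanish
(so that `-1` has no fixed point).
-/

namespace TripleBurger

open Complex

/-- the space of the coordinates `(W, X, Y)` -/
abbrev Coord3 : Type := (Fin 3 → ℂ) × (Fin 3 → ℂ) × (Fin 3 → ℂ)

/-- the equations of the fibre over `b` in the homogeneous coordinates -/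
def eqs (b : Param) (v : Coord3) : (Fin 3 → ℂ) × ℂ :=
  (fun i => v.2.2 i ^ 2 - quartic b i (v.1 i) (v.2.1 i),
    v.2.1 0 * v.2.1 2 * v.1 1 - b 4 * v.2.1 1 * v.1 0 * v.1 2)

theorem eqs_eq_zero (p : Cone) : eqs p.b (p.W, p.X, p.Y) = 0 := by
  have h1 := p.2.2.2.1
  have h2 := p.2.2.2.2
  refine Prod.ext (funext fun i => ?_) ?_
  · exact sub_eq_zero.2 (h1 i)
  · exact sub_eq_zero.2 h2

/-- `W_i` as a linear form -/
noncomputable def prW (i : Fin 3) : Coord3 →L[ℂ] ℂ :=
  (ContinuousLinearMap.proj i).comp (ContinuousLinearMap.fst ℂ _ _)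
/-- `X_i` as a linear form -/
noncomputable def prX (i : Fin 3) : Coord3 →L[ℂ] ℂ :=
  (ContinuousLinearMap.proj i).comp ((ContinuousLinearMap.fst ℂ _ _).comp
    (ContinuousLinearMap.snd ℂ _ _))
/-- `Y_i` as a linear form -/
noncomputable def prY (i : Fin 3) : Coord3 →L[ℂ] ℂ :=
  (ContinuousLinearMap.proj i).comp ((ContinuousLinearMap.snd ℂ _ _).comp
    (ContinuousLinearMap.snd ℂ _ _))

@[simp] theorem prW_apply (i : Fin 3) (v : Coord3) : prW i v = v.1 i := rfl
@[simp] theorem prX_apply (i : Fin 3) (v : Coord3) : prX i v = v.2.1 i := rfl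
@[simp] theorem prY_apply (i : Fin 3) (v : Coord3) : prY i v = v.2.2 i := rfl

/-- the linear factors of the quartic -/
noncomputable def lin (b : Param) (i : Fin 3) (j : Fin 4) : Coord3 →L[ℂ] ℂ :=
  prX i - root b i j • prW i

theorem lin_apply (b : Param) (i : Fin 3) (j : Fin 4) (v : Coord3) :
    lin b i j v = v.2.1 i - root b i j * v.1 i := by
  simp [lin]

/-- the differential of the equations -/
noncomputable def dEqs (b : Param) (v : Coord3) : Coord3 →L[ℂ] (Fin 3 → ℂ) × ℂ :=
  (ContinuousLinearMap.pi fun i => (2 * v.2.2 i) • prY i -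
      ∑ j : Fin 4, (∏ k ∈ Finset.univ.erase j, lin b i k v) • lin b i j).prod
    ((v.2.1 2 * v.1 1) • prX 0 + (v.2.1 0 * v.1 1) • prX 2 + (v.2.1 0 * v.2.1 2) • prW 1 -
      ((b 4 * v.1 0 * v.1 2) • prX 1 + (b 4 * v.2.1 1 * v.1 2) • prW 0 +
        (b 4 * v.2.1 1 * v.1 0) • prW 2))

theorem hasFDerivAt_eqs (b : Param) (v : Coord3) : HasFDerivAt (eqs b) (dEqs b v) v := by
  unfold eqs dEqs
  refine HasFDerivAt.prodMk (hasFDerivAt_pi.2 fun i => ?_) ?_
  · refine HasFDerivAt.sub ?_ ?_
    · have h := (prY i).hasFDerivAt (x := v)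
      have h2 := h.pow 2
      refine h2.congr_fderiv ?_
      refine ContinuousLinearMap.ext fun w => ?_
      simp
    · have h : ∀ j ∈ (Finset.univ : Finset (Fin 4)), HasFDerivAt (fun w => lin b i j w)
          (lin b i j) v := fun j _ => (lin b i j).hasFDerivAt
      have h2 := HasFDerivAt.finsetProd h
      refine HasFDerivAt.congr_of_eventuallyEq h2 (Filter.Eventually.of_forall fun w => ?_)
      show quartic b i (w.1 i) (w.2.1 i) = ∏ j : Fin 4, lin b i j w
      unfold quartic
      exact Finset.prod_congr rfl fun j _ => (lin_apply b i j w).symm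
  · have hX0 := (prX 0).hasFDerivAt (x := v)
    have hX1 := (prX 1).hasFDerivAt (x := v)
    have hX2 := (prX 2).hasFDerivAt (x := v)
    have hW0 := (prW 0).hasFDerivAt (x := v)
    have hW1 := (prW 1).hasFDerivAt (x := v)
    have hW2 := (prW 2).hasFDerivAt (x := v)
    have h1 := (hX0.mul hX2).mul hW1
    have h2 := ((hX1.const_mul (b 4)).mul hW0).mul hW2
    refine (h1.sub h2).congr_fderiv ?_
    refine ContinuousLinearMap.ext fun w => ?_
    simp
    ring

theorem quartic_at_zero {b : Param} (hb : b ∈ BaseSet) (i : Fin 3) {W : ℂ} (hW : W ≠ 0) :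
    quartic b i W 0 ≠ 0 := by
  unfold quartic
  refine Finset.prod_ne_zero_iff.2 fun j _ => ?_
  rw [zero_sub, neg_ne_zero]
  exact mul_ne_zero (hb.2.1 i j) hW

theorem quartic_at_inf (b : Param) (i : Fin 3) {X : ℂ} (hX : X ≠ 0) :
    quartic b i 0 X ≠ 0 := by
  unfold quartic
  refine Finset.prod_ne_zero_iff.2 fun j _ => ?_
  rw [mul_zero, sub_zero]
  exact hX

/-- a point over a branch point -/
theorem exists_root {p : Cone} {i : Fin 3} (h : p.Y i = 0) :
    p.W i ≠ 0 ∧ ∃ j, p.X i = root p.b i j * p.W i := by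
  have h1 : p.Y i ^ 2 = quartic p.b i (p.W i) (p.X i) := p.2.2.2.1 i
  rw [h, zero_pow two_ne_zero] at h1
  refine ⟨fun hW => ?_, ?_⟩
  · rw [hW] at h1
    exact quartic_at_inf p.b i ((p.2.2.1 i).resolve_left fun h' => h' hW) h1.symm
  · unfold quartic at h1
    obtain ⟨j, -, hj⟩ := Finset.prod_eq_zero_iff.1 h1.symm
    exact ⟨j, sub_eq_zero.1 hj⟩

/-- the involution `-1` has no fixed point on the fibres -/
theorem exists_Y_ne_zero (p : Cone) : ∃ i, p.Y i ≠ 0 := by
  by_contra h
  push Not at h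
  obtain ⟨w0, j, hj⟩ := exists_root (h 0)
  obtain ⟨w1, k, hk⟩ := exists_root (h 1)
  obtain ⟨w2, l, hl⟩ := exists_root (h 2)
  have hrel : p.X 0 * p.X 2 * p.W 1 = p.b 4 * p.X 1 * p.W 0 * p.W 2 := p.2.2.2.2
  rw [hj, hk, hl] at hrel
  have hb : p.b ∈ BaseSet := p.2.1
  refine hb.2.2.2 j k l ?_
  have h3 : (p.W 0 * p.W 2 * p.W 1) ≠ 0 := mul_ne_zero (mul_ne_zero w0 w2) w1
  have h4 : (p.W 0 * p.W 2 * p.W 1) * (root p.b 0 j * root p.b 2 l) =
      (p.W 0 * p.W 2 * p.W 1) * (p.b 4 * root p.b 1 k) := by linear_combination hrel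
  exact mul_left_cancel₀ h3 h4

/-- the partial derivative of the quartic in the direction `X_i` does not vanish over a branch
point -/
theorem dX_quartic_ne_zero {p : Cone} {i : Fin 3} (h : p.Y i = 0) :
    ∑ j : Fin 4, ∏ k ∈ Finset.univ.erase j, lin p.b i k (p.W, p.X, p.Y) ≠ 0 := by
  obtain ⟨hW, l, hl⟩ := exists_root h
  have hb : p.b ∈ BaseSet := p.2.1
  have h0 : lin p.b i l (p.W, p.X, p.Y) = 0 := by
    rw [lin_apply]
    exact sub_eq_zero.2 hl
  rw [Finset.sum_eq_single l]
  · refine Finset.prod_ne_zero_iff.2 fun k hk => ?_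
    rw [lin_apply]
    show p.X i - root p.b i k * p.W i ≠ 0
    rw [hl, ← sub_mul]
    refine mul_ne_zero (sub_ne_zero.2 fun h' => ?_) hW
    exact (Finset.mem_erase.1 hk).1 (hb.1 i h').symm
  · intro j _ hj
    exact Finset.prod_eq_zero (Finset.mem_erase.2 ⟨fun h' => hj h'.symm, Finset.mem_univ _⟩) h0
  · intro h'
    exact absurd (Finset.mem_univ _) h'

/-- **The fibres are smooth**: at every point the differential of the equations is surjective. -/
theorem dEqs_surjective (p : Cone) :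
    Function.Surjective (dEqs p.b (p.W, p.X, p.Y)) := by
  have hb : p.b ∈ BaseSet := p.2.1
  have hrel : p.X 0 * p.X 2 * p.W 1 = p.b 4 * p.X 1 * p.W 0 * p.W 2 := p.2.2.2.2
  have hne := p.2.2.1
  have hne' : ∀ i, p.W i ≠ 0 ∨ p.X i ≠ 0 := hne
  have hmu : p.b 4 ≠ 0 := hb.2.2.1
  rw [← ContinuousLinearMap.coe_coe, ← LinearMap.range_eq_top]
  by_contra hlt
  obtain ⟨f, hf0, hf⟩ := Submodule.exists_le_ker_of_lt_top _ (lt_top_iff_ne_top.2 hlt)
  obtain ⟨a, ha⟩ : ∃ a : Fin 3 → ℂ, a = fun i => f (Pi.single i 1, 0) := ⟨_, rfl⟩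
  obtain ⟨c, hc⟩ : ∃ c : ℂ, c = f (0, 1) := ⟨_, rfl⟩
  have hfe : ∀ (u : Fin 3 → ℂ) (d : ℂ), f (u, d) = u 0 * a 0 + u 1 * a 1 + u 2 * a 2 + d * c := by
    intro u d
    have e1 : ((u, d) : (Fin 3 → ℂ) × ℂ) = u 0 • (Pi.single 0 1, 0) + u 1 • (Pi.single 1 1, 0) +
        u 2 • (Pi.single 2 1, 0) + d • (0, 1) := by
      refine Prod.ext (funext fun i => ?_) ?_
      · fin_cases i <;> simp
      · simp
    rw [e1, map_add, map_add, map_add, map_smul, map_smul, map_smul, map_smul, ha, hc]
    simp only [smul_eq_mul]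
  have hker : ∀ w, f (dEqs p.b (p.W, p.X, p.Y) w) = 0 := fun w => hf ⟨w, rfl⟩
  -- direction `Y i`
  have hY : ∀ i, a i * p.Y i = 0 := by
    intro i
    have h := hker (0, 0, Pi.single i 1)
    have e2 : dEqs p.b (p.W, p.X, p.Y) (0, 0, Pi.single i 1) =
        ((fun j => 2 * p.Y j * (Pi.single i (1 : ℂ) : Fin 3 → ℂ) j), 0) := by
      refine Prod.ext (funext fun j => ?_) ?_
      · simp [dEqs, lin]
      · simp [dEqs]
    rw [e2, hfe] at h
    fin_cases i <;> simp at h ⊢ <;> rcases h with h | h <;> simp [h]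
  -- direction `X i`
  have hX : ∀ i, f (dEqs p.b (p.W, p.X, p.Y) (0, Pi.single i 1, 0)) = 0 := fun i => hker _
  have hW : ∀ i, f (dEqs p.b (p.W, p.X, p.Y) (Pi.single i 1, 0, 0)) = 0 := fun i => hker _
  have eX : ∀ i, dEqs p.b (p.W, p.X, p.Y) (0, Pi.single i 1, 0) =
      ((fun j => -((∑ j' : Fin 4, ∏ k ∈ Finset.univ.erase j', lin p.b j k (p.W, p.X, p.Y)) *
        (Pi.single i (1 : ℂ) : Fin 3 → ℂ) j)),
      p.X 2 * p.W 1 * (Pi.single i (1 : ℂ) : Fin 3 → ℂ) 0 +
      p.X 0 * p.W 1 * (Pi.single i (1 : ℂ) : Fin 3 → ℂ) 2 -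
      p.b 4 * p.W 0 * p.W 2 * (Pi.single i (1 : ℂ) : Fin 3 → ℂ) 1) := by
    intro i
    refine Prod.ext (funext fun j => ?_) ?_
    · simp [dEqs, lin, Finset.sum_mul]
    · simp [dEqs]
  have eW : ∀ i, ∃ u : Fin 3 → ℂ, (∀ j, j ≠ i → u j = 0) ∧
      dEqs p.b (p.W, p.X, p.Y) (Pi.single i 1, 0, 0) = (u,
      p.X 0 * p.X 2 * (Pi.single i (1 : ℂ) : Fin 3 → ℂ) 1 -
      (p.b 4 * p.X 1 * p.W 2 * (Pi.single i (1 : ℂ) : Fin 3 → ℂ) 0 +
      p.b 4 * p.X 1 * p.W 0 * (Pi.single i (1 : ℂ) : Fin 3 → ℂ) 2)) := by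
    intro i
    refine ⟨(dEqs p.b (p.W, p.X, p.Y) (Pi.single i 1, 0, 0)).1, fun j hj => ?_,
      Prod.ext rfl ?_⟩
    · simp [dEqs, lin, Pi.single_eq_of_ne hj]
    · simp [dEqs]
  -- consequences
  have kX0 : -(∑ j' : Fin 4, ∏ k ∈ Finset.univ.erase j', lin p.b 0 k (p.W, p.X, p.Y)) * a 0 +
      p.X 2 * p.W 1 * c = 0 := by
    have h := hX 0
    rw [eX, hfe] at h
    simp at h
    linear_combination h
  have kX1 : -(∑ j' : Fin 4, ∏ k ∈ Finset.univ.erase j', lin p.b 1 k (p.W, p.X, p.Y)) * a 1 -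
      p.b 4 * p.W 0 * p.W 2 * c = 0 := by
    have h := hX 1
    rw [eX, hfe] at h
    simp at h
    linear_combination h
  have kX2 : -(∑ j' : Fin 4, ∏ k ∈ Finset.univ.erase j', lin p.b 2 k (p.W, p.X, p.Y)) * a 2 +
      p.X 0 * p.W 1 * c = 0 := by
    have h := hX 2
    rw [eX, hfe] at h
    simp at h
    linear_combination h
  have kW0 : a 0 = 0 → p.b 4 * p.X 1 * p.W 2 * c = 0 := by
    intro h0
    obtain ⟨u, hu, he⟩ := eW 0
    have h := hW 0
    rw [he, hfe, hu 1 (by decide), hu 2 (by decide), h0] at h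
    simp at h
    simp only [mul_eq_zero]
    tauto
  have kW1 : a 1 = 0 → p.X 0 * p.X 2 * c = 0 := by
    intro h0
    obtain ⟨u, hu, he⟩ := eW 1
    have h := hW 1
    rw [he, hfe, hu 0 (by decide), hu 2 (by decide), h0] at h
    simp at h
    simp only [mul_eq_zero]
    tauto
  have kW2 : a 2 = 0 → p.b 4 * p.X 1 * p.W 0 * c = 0 := by
    intro h0
    obtain ⟨u, hu, he⟩ := eW 2
    have h := hW 2
    rw [he, hfe, hu 0 (by decide), hu 1 (by decide), h0] at h
    simp at h
    simp only [mul_eq_zero]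
    tauto
  have haY : ∀ i, p.Y i ≠ 0 → a i = 0 := fun i hi => (mul_eq_zero.1 (hY i)).resolve_right hi
  have hY0X : ∀ i, p.X i = 0 → p.Y i ≠ 0 := by
    intro i hXi hYi
    obtain ⟨w, j, hj⟩ := exists_root hYi
    rw [hXi] at hj
    exact mul_ne_zero (hb.2.1 i j) w hj.symm
  have hY0W : ∀ i, p.W i = 0 → p.Y i ≠ 0 := fun i hWi hYi => (exists_root hYi).1 hWi
  -- the coefficient of the relation
  have hc0 : c = 0 := by
    by_contra hc0
    by_cases hY1 : p.Y 1 = 0
    · obtain ⟨w1, j, hj⟩ := exists_root hY1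
      have x1 : p.X 1 ≠ 0 := by rw [hj]; exact mul_ne_zero (hb.2.1 1 j) w1
      by_cases hY0 : p.Y 0 = 0
      · have hY2 : p.Y 2 ≠ 0 := by
          intro hY2
          obtain ⟨i, hi⟩ := exists_Y_ne_zero p
          fin_cases i
          · exact hi hY0
          · exact hi hY1
          · exact hi hY2
        have a2 := haY 2 hY2
        rw [a2, mul_zero, zero_add] at kX2
        have k := kW2 a2
        have e1 : p.X 0 = 0 := by
          rcases mul_eq_zero.1 kX2 with h | h
          · rcases mul_eq_zero.1 h with h | h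
            · exact h
            · exact absurd h w1
          · exact absurd h hc0
        have e2 : p.W 0 = 0 := by
          rcases mul_eq_zero.1 k with h | h
          · rcases mul_eq_zero.1 h with h | h
            · exact absurd h (mul_ne_zero hmu x1)
            · exact h
          · exact absurd h hc0
        exact (hne' 0).elim (fun h => h e2) (fun h => h e1)
      · have a0 := haY 0 hY0
        rw [a0, mul_zero, zero_add] at kX0
        have k := kW0 a0
        have e1 : p.X 2 = 0 := by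
          rcases mul_eq_zero.1 kX0 with h | h
          · rcases mul_eq_zero.1 h with h | h
            · exact h
            · exact absurd h w1
          · exact absurd h hc0
        have e2 : p.W 2 = 0 := by
          rcases mul_eq_zero.1 k with h | h
          · rcases mul_eq_zero.1 h with h | h
            · exact absurd h (mul_ne_zero hmu x1)
            · exact h
          · exact absurd h hc0
        exact (hne' 2).elim (fun h => h e2) (fun h => h e1)
    · have a1 := haY 1 hY1
      have k := kW1 a1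
      rw [a1, mul_zero, zero_sub, neg_eq_zero] at kX1
      have e1 : p.X 0 = 0 ∨ p.X 2 = 0 := by
        rcases mul_eq_zero.1 k with h | h
        · exact mul_eq_zero.1 h
        · exact absurd h hc0
      have e2 : p.W 0 = 0 ∨ p.W 2 = 0 := by
        rcases mul_eq_zero.1 kX1 with h | h
        · rcases mul_eq_zero.1 h with h | h
          · exact Or.inl ((mul_eq_zero.1 h).resolve_left hmu)
          · exact Or.inr h
        · exact absurd h hc0
      rcases e1 with x0 | x2
      · have w0 : p.W 0 ≠ 0 := (hne' 0).resolve_right (fun h => h x0)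
        have w2 : p.W 2 = 0 := e2.resolve_left w0
        have x2 : p.X 2 ≠ 0 := (hne' 2).resolve_left (fun h => h w2)
        have a0 := haY 0 (hY0X 0 x0)
        have a2 := haY 2 (hY0W 2 w2)
        rw [a0, mul_zero, zero_add] at kX0
        have k2 := kW2 a2
        have e3 : p.W 1 = 0 := by
          rcases mul_eq_zero.1 kX0 with h | h
          · exact (mul_eq_zero.1 h).resolve_left x2
          · exact absurd h hc0
        have e4 : p.X 1 = 0 := by
          rcases mul_eq_zero.1 k2 with h | h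
          · rcases mul_eq_zero.1 h with h | h
            · exact (mul_eq_zero.1 h).resolve_left hmu
            · exact absurd h w0
          · exact absurd h hc0
        exact (hne' 1).elim (fun h => h e3) (fun h => h e4)
      · have w2 : p.W 2 ≠ 0 := (hne' 2).resolve_right (fun h => h x2)
        have w0 : p.W 0 = 0 := e2.resolve_right w2
        have x0 : p.X 0 ≠ 0 := (hne' 0).resolve_left (fun h => h w0)
        have a2 := haY 2 (hY0X 2 x2)
        have a0 := haY 0 (hY0W 0 w0)
        rw [a2, mul_zero, zero_add] at kX2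
        have k0 := kW0 a0
        have e3 : p.W 1 = 0 := by
          rcases mul_eq_zero.1 kX2 with h | h
          · exact (mul_eq_zero.1 h).resolve_left x0
          · exact absurd h hc0
        have e4 : p.X 1 = 0 := by
          rcases mul_eq_zero.1 k0 with h | h
          · rcases mul_eq_zero.1 h with h | h
            · exact (mul_eq_zero.1 h).resolve_left hmu
            · exact absurd h w2
          · exact absurd h hc0
        exact (hne' 1).elim (fun h => h e3) (fun h => h e4)
  -- the other coefficients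
  have ha0 : ∀ i, a i = 0 := by
    intro i
    by_cases hYi : p.Y i = 0
    · have hd := dX_quartic_ne_zero hYi
      fin_cases i
      · rw [hc0, mul_zero, add_zero, neg_mul, neg_eq_zero] at kX0
        exact (mul_eq_zero.1 kX0).resolve_left hd
      · rw [hc0, mul_zero, sub_zero, neg_mul, neg_eq_zero] at kX1
        exact (mul_eq_zero.1 kX1).resolve_left hd
      · rw [hc0, mul_zero, add_zero, neg_mul, neg_eq_zero] at kX2
        exact (mul_eq_zero.1 kX2).resolve_left hd
    · exact haY i hYi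
  apply hf0
  refine LinearMap.ext fun x => ?_
  obtain ⟨u, d⟩ := x
  rw [hfe, ha0, ha0, ha0, hc0]
  simp

/-- the same with Mathlib's derivative -/
theorem fibre_smooth (p : Cone) :
    Function.Surjective (fderiv ℂ (eqs p.b) (p.W, p.X, p.Y)) := by
  rw [(hasFDerivAt_eqs p.b (p.W, p.X, p.Y)).fderiv]
  exact dEqs_surjective p

end TripleBurger
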