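import Mathlib

/-!
# The principal square root of a complex number
-/

namespace Pool.Agent.helper84.K3B

open Complex

/-- principal square root -/
noncomputable def csqrt (z : ℂ) : ℂ := z ^ (1 / 2 : ℂ)

theorem csqrt_sq (z : ℂ) : csqrt z ^ 2 = z := by
  unfold csqrt
  rw [← Complex.cpow_nat_mul]
  norm_num

theorem csqrt_mul_self (z : ℂ) : csqrt z * csqrt z = z := by
  rw [← sq, csqrt_sq]

@[simp] theorem csqrt_zero : csqrt 0 = 0 := by
  have h := csqrt_sq 0
  exact pow_eq_zero_iff (two_ne_zero) |>.1 h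

@[simp] theorem csqrt_one : csqrt 1 = 1 := by
  unfold csqrt
  exact Complex.one_cpow _

theorem csqrt_eq_zero {z : ℂ} : csqrt z = 0 ↔ z = 0 := by
  constructor
  · intro h
    rw [← csqrt_sq z, h]
    ring
  · rintro rfl
    exact csqrt_zero

theorem csqrt_ne_zero {z : ℂ} (h : z ≠ 0) : csqrt z ≠ 0 := fun h0 => h (csqrt_eq_zero.1 h0)

/-- polar form -/
theorem csqrt_polar {z : ℂ} (hz : z ≠ 0) :
    csqrt z = (Real.sqrt ‖z‖ : ℝ) * Complex.exp ((z.arg / 2 : ℝ) * I) := by
  unfold csqrt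
  rw [Complex.cpow_def_of_ne_zero hz]
  have h1 : Complex.log z = (Real.log ‖z‖ : ℝ) + (z.arg : ℝ) * I := by
    rw [← Complex.log_re, ← Complex.log_im]
    exact (Complex.re_add_im _).symm
  have h2 : (0 : ℝ) < ‖z‖ := norm_pos_iff.2 hz
  have h3 : (Real.sqrt ‖z‖ : ℝ) = Real.exp (Real.log ‖z‖ / 2) := by
    rw [Real.exp_half, Real.exp_log h2]
  rw [h3, Complex.ofReal_exp, ← Complex.exp_add, h1]
  congr 1
  push_cast
  ring

theorem csqrt_re {z : ℂ} (hz : z ≠ 0) : (csqrt z).re = Real.sqrt ‖z‖ * Real.cos (z.arg / 2) := by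
  rw [csqrt_polar hz, Complex.re_ofReal_mul, Complex.exp_ofReal_mul_I_re]

theorem csqrt_im {z : ℂ} (hz : z ≠ 0) : (csqrt z).im = Real.sqrt ‖z‖ * Real.sin (z.arg / 2) := by
  rw [csqrt_polar hz, Complex.im_ofReal_mul, Complex.exp_ofReal_mul_I_im]

theorem csqrt_re_nonneg (z : ℂ) : 0 ≤ (csqrt z).re := by
  by_cases hz : z = 0
  · rw [hz, csqrt_zero]; simp
  · rw [csqrt_re hz]
    refine mul_nonneg (Real.sqrt_nonneg _) (Real.cos_nonneg_of_mem_Icc ⟨?_, ?_⟩)
    · linarith [Complex.neg_pi_lt_arg z]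
    · linarith [Complex.arg_le_pi z]

theorem csqrt_re_pos {z : ℂ} (hz : z ∈ slitPlane) : 0 < (csqrt z).re := by
  have h0 : z ≠ 0 := slitPlane_ne_zero hz
  rw [csqrt_re h0]
  refine mul_pos (Real.sqrt_pos.2 (norm_pos_iff.2 h0)) (Real.cos_pos_of_mem_Ioo ⟨?_, ?_⟩)
  · linarith [Complex.neg_pi_lt_arg z]
  · have h1 := Complex.arg_le_pi z
    have h2 := slitPlane_arg_ne_pi hz
    have h3 : z.arg < Real.pi := lt_of_le_of_ne h1 h2
    linarith

/-- on the closed upper half plane the imaginary part is nonnegative -/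
theorem csqrt_im_nonneg {z : ℂ} (h : 0 ≤ z.im) : 0 ≤ (csqrt z).im := by
  by_cases hz : z = 0
  · rw [hz, csqrt_zero]; simp
  · rw [csqrt_im hz]
    refine mul_nonneg (Real.sqrt_nonneg _) (Real.sin_nonneg_of_mem_Icc ⟨?_, ?_⟩)
    · have := Complex.arg_nonneg_iff.2 h
      linarith
    · have := Complex.arg_le_pi z
      linarith [Real.pi_pos]

theorem csqrt_im_pos {z : ℂ} (h : 0 < z.im) : 0 < (csqrt z).im := by
  have hz : z ≠ 0 := fun h0 => by rw [h0] at h; simp at h
  rw [csqrt_im hz]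
  refine mul_pos (Real.sqrt_pos.2 (norm_pos_iff.2 hz)) (Real.sin_pos_of_mem_Ioo ⟨?_, ?_⟩)
  · have h1 := Complex.arg_nonneg_iff.2 h.le
    have h2 : z.arg ≠ 0 := fun h0 => by
      have := (Complex.arg_eq_zero_iff.1 h0).2
      linarith
    have : 0 < z.arg := lt_of_le_of_ne h1 (Ne.symm h2)
    linarith
  · have := Complex.arg_le_pi z
    linarith [Real.pi_pos]

theorem csqrt_im_neg {z : ℂ} (h : z.im < 0) : (csqrt z).im < 0 := by
  have hz : z ≠ 0 := fun h0 => by rw [h0] at h; simp at h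
  rw [csqrt_im hz]
  refine mul_neg_of_pos_of_neg (Real.sqrt_pos.2 (norm_pos_iff.2 hz))
    (Real.sin_neg_of_neg_of_neg_pi_lt ?_ ?_)
  · have := Complex.arg_neg_iff.2 h
    linarith
  · linarith [Complex.neg_pi_lt_arg z, Real.pi_pos]

/-- uniqueness -/
theorem csqrt_eq_of_sq {z w : ℂ} (h : w ^ 2 = z) (hw : 0 < w.re) : csqrt z = w := by
  have h1 : (csqrt z - w) * (csqrt z + w) = 0 := by
    have := csqrt_sq z
    linear_combination this - h
  rcases mul_eq_zero.1 h1 with h2 | h2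
  · exact sub_eq_zero.1 h2
  · exfalso
    have h3 : csqrt z = -w := eq_neg_of_add_eq_zero_left h2
    have h4 := csqrt_re_nonneg z
    rw [h3, Complex.neg_re] at h4
    linarith

/-- uniqueness, imaginary case -/
theorem csqrt_eq_of_sq_im {z w : ℂ} (h : w ^ 2 = z) (hw : w.re = 0) (hw' : 0 ≤ w.im) :
    csqrt z = w := by
  have h1 : (csqrt z - w) * (csqrt z + w) = 0 := by
    have := csqrt_sq z
    linear_combination this - h
  rcases mul_eq_zero.1 h1 with h2 | h2
  · exact sub_eq_zero.1 h2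
  · have h3 : csqrt z = -w := eq_neg_of_add_eq_zero_left h2
    have hz : z.im = 0 := by
      rw [← h, sq, Complex.mul_im, hw]; ring
    have h4 := csqrt_im_nonneg (z := z) (by rw [hz])
    rw [h3, Complex.neg_im] at h4
    have h5 : w.im = 0 := by linarith
    have h6 : w = 0 := Complex.ext hw h5
    rw [h3, h6, neg_zero]

theorem csqrt_sq_of_re_pos {w : ℂ} (hw : 0 < w.re) : csqrt (w ^ 2) = w := csqrt_eq_of_sq rfl hw

theorem csqrt_sq_of_re_neg {w : ℂ} (hw : w.re < 0) : csqrt (w ^ 2) = -w := by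
  refine csqrt_eq_of_sq (by ring) ?_
  rw [Complex.neg_re]
  linarith

/-- the square root of the product, when the square roots lie in a common half plane condition -/
theorem csqrt_mul_of_re_pos {z w : ℂ} (h : 0 < (csqrt z * csqrt w).re) :
    csqrt (z * w) = csqrt z * csqrt w := by
  refine csqrt_eq_of_sq ?_ h
  rw [mul_pow, csqrt_sq, csqrt_sq]

theorem csqrt_ofReal_of_nonneg {x : ℝ} (hx : 0 ≤ x) : csqrt (x : ℂ) = (Real.sqrt x : ℝ) := by
  rcases hx.eq_or_lt with h | h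
  · rw [← h]; simp
  · refine csqrt_eq_of_sq ?_ ?_
    · rw [← Complex.ofReal_pow, Real.sq_sqrt hx]
    · rw [Complex.ofReal_re]
      exact Real.sqrt_pos.2 h

theorem csqrt_ofReal_of_nonpos {x : ℝ} (hx : x ≤ 0) :
    csqrt (x : ℂ) = (Real.sqrt (-x) : ℝ) * I := by
  refine csqrt_eq_of_sq_im ?_ ?_ ?_
  · rw [mul_pow, ← Complex.ofReal_pow, Real.sq_sqrt (by linarith), Complex.I_sq]
    push_cast
    ring
  · simp
  · simp [Real.sqrt_nonneg]

theorem csqrt_real_mul {r : ℝ} (hr : 0 ≤ r) (z : ℂ) :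
    csqrt ((r : ℂ) * z) = (Real.sqrt r : ℝ) * csqrt z := by
  rcases hr.eq_or_lt with h | h
  · rw [← h]; simp
  · by_cases hz : 0 < (csqrt z).re
    · refine csqrt_eq_of_sq ?_ ?_
      · rw [mul_pow, csqrt_sq, ← Complex.ofReal_pow, Real.sq_sqrt hr]
      · rw [Complex.re_ofReal_mul]
        exact mul_pos (Real.sqrt_pos.2 h) hz
    · have h1 : (csqrt z).re = 0 := le_antisymm (not_lt.1 hz) (csqrt_re_nonneg z)
      have hzim : z.im = 0 := by
        rw [← csqrt_sq z, sq, Complex.mul_im, h1]; ring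
      refine csqrt_eq_of_sq_im ?_ ?_ ?_
      · rw [mul_pow, csqrt_sq, ← Complex.ofReal_pow, Real.sq_sqrt hr]
      · rw [Complex.re_ofReal_mul, h1, mul_zero]
      · rw [Complex.im_ofReal_mul]
        exact mul_nonneg (Real.sqrt_nonneg _) (csqrt_im_nonneg (by rw [hzim]))

open scoped ComplexConjugate in
theorem csqrt_conj {z : ℂ} (hz : z ∈ slitPlane) : csqrt (conj z) = conj (csqrt z) := by
  refine csqrt_eq_of_sq ?_ ?_
  · rw [← map_pow, csqrt_sq]
  · rw [Complex.conj_re]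
    exact csqrt_re_pos hz

theorem csqrt_inv {z : ℂ} (hz : z ∈ slitPlane) : csqrt z⁻¹ = (csqrt z)⁻¹ := by
  refine csqrt_eq_of_sq ?_ ?_
  · rw [inv_pow, csqrt_sq]
  · rw [Complex.inv_re]
    have h := csqrt_re_pos hz
    have h1 : csqrt z ≠ 0 := csqrt_ne_zero (slitPlane_ne_zero hz)
    exact div_pos h (Complex.normSq_pos.2 h1)

/-! ## continuity -/

theorem continuousAt_csqrt {z : ℂ} (hz : z ∈ slitPlane) : ContinuousAt csqrt z :=
  continuousAt_cpow_const hz

theorem norm_csqrt (z : ℂ) : ‖csqrt z‖ = Real.sqrt ‖z‖ := by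
  have h := congrArg norm (csqrt_sq z)
  rw [norm_pow] at h
  rw [← h, Real.sqrt_sq (norm_nonneg _)]

theorem continuousAt_csqrt_zero : ContinuousAt csqrt 0 := by
  rw [ContinuousAt, csqrt_zero, tendsto_zero_iff_norm_tendsto_zero]
  have h : (fun z => ‖csqrt z‖) = fun z : ℂ => Real.sqrt ‖z‖ := funext norm_csqrt
  rw [h]
  have : Filter.Tendsto (fun z : ℂ => Real.sqrt ‖z‖) (nhds 0) (nhds (Real.sqrt ‖(0 : ℂ)‖)) :=
    (Real.continuous_sqrt.comp continuous_norm).tendsto 0
  simpa using this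

theorem continuous_csqrt_ofReal : Continuous fun x : ℝ => csqrt (x : ℂ) := by
  have h : (fun x : ℝ => csqrt (x : ℂ)) =
      fun x : ℝ => ((Real.sqrt x : ℝ) : ℂ) + (Real.sqrt (-x) : ℝ) * I := by
    funext x
    rcases le_total 0 x with hx | hx
    · rw [csqrt_ofReal_of_nonneg hx, Real.sqrt_eq_zero_of_nonpos (x := -x) (by linarith)]
      simp
    · rw [csqrt_ofReal_of_nonpos hx, Real.sqrt_eq_zero_of_nonpos hx]
      simp
  rw [h]
  exact (Complex.continuous_ofReal.comp Real.continuous_sqrt).add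
    ((Complex.continuous_ofReal.comp (Real.continuous_sqrt.comp continuous_neg)).mul
      continuous_const)

theorem ContinuousOn.csqrt {α : Type*} [TopologicalSpace α] {f : α → ℂ} {s : Set α}
    (hf : ContinuousOn f s) (h : ∀ a ∈ s, f a ∈ slitPlane) :
    ContinuousOn (fun a => csqrt (f a)) s :=
  fun a ha => (continuousAt_csqrt (h a ha)).comp_continuousWithinAt (hf a ha)

theorem Continuous.csqrt {α : Type*} [TopologicalSpace α] {f : α → ℂ}
    (hf : Continuous f) (h : ∀ a, f a ∈ slitPlane) : Continuous fun a => csqrt (f a) :=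
  continuous_iff_continuousAt.2 fun a => (continuousAt_csqrt (h a)).comp hf.continuousAt

end Pool.Agent.helper84.K3B
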