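import Pool.Agent.helper10.K3B.WindDef
import Pool.Agent.helper84.K3B.Csqrt

/-!
# K3B: turning `s` (or `t`): the sheet sign and the indicator as functions of the angle
-/

namespace TripleBurger

open Complex K3B

theorem csqrt_eq84 (z : ℂ) : csqrt z = Pool.Agent.helper84.K3B.csqrt z := rfl

/-- the value of `hfun` at `x = 0` for the cuts `[1, s]`, `[-1, s - e]` -/
theorem hfun_at_zero (s e : ℂ) :
    hfun 1 s (-1) (s - e) 1 0 = -(csqrt s * csqrt (e - s)) := by
  unfold hfun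
  have h1 : (0 - s * 1) / (0 - 1 * 1 : ℂ) = s := by
    rw [zero_sub, zero_sub, mul_one, mul_one, neg_div_neg_eq, div_one]
  have h2 : (0 - (s - e) * 1) / (0 - (-1) * 1 : ℂ) = e - s := by
    rw [mul_one, neg_mul, one_mul, zero_sub, sub_neg_eq_add, zero_add, div_one]
    ring
  rw [h1, h2]
  ring

theorem offCuts_at_zero {s e : ℂ} (h1 : s ∈ slitPlane) (h2 : e - s ∈ slitPlane) :
    OffCuts 1 s (-1) (s - e) 1 0 := by
  unfold OffCuts
  have e1 : (0 - s * 1) / (0 - 1 * 1 : ℂ) = s := by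
    rw [zero_sub, zero_sub, mul_one, mul_one, neg_div_neg_eq, div_one]
  have e2 : (0 - (s - e) * 1) / (0 - (-1) * 1 : ℂ) = e - s := by
    rw [mul_one, neg_mul, one_mul, zero_sub, sub_neg_eq_add, zero_add, div_one]
    ring
  rw [e1, e2]
  exact ⟨h1, h2⟩

theorem im_one_sub_div (s : ℂ) (e : ℝ) : (1 - (e : ℂ) / s).im = e * s.im / Complex.normSq s := by
  rw [sub_im, one_im, div_im]
  simp

/-- `Im s > 0`: the sheet sign is `1` -/
theorem sheet_turn_pos {s : ℂ} {e : ℝ} (he : 0 < e) (hs : 0 < s.im) :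
    sheet 1 s (-1) (s - (e : ℂ)) 1 0 (I * s * csqrt (1 - (e : ℂ) / s)) = 1 := by
  have hs0 : s ≠ 0 := fun h => by rw [h] at hs; simp at hs
  have h1 : s ∈ slitPlane := by
    rw [mem_slitPlane_iff]; right; exact hs.ne'
  have h2 : (e : ℂ) - s ∈ slitPlane := by
    rw [mem_slitPlane_iff]; right
    rw [sub_im, ofReal_im]
    intro h; linarith
  have h3 : 0 < (1 - (e : ℂ) / s).im := by
    rw [im_one_sub_div]
    exact div_pos (mul_pos he hs) (Complex.normSq_pos.2 hs0)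
  have a1 := Pool.Agent.helper84.K3B.csqrt_re_pos h1
  have a2 := Pool.Agent.helper84.K3B.csqrt_im_pos hs
  have b1 := Pool.Agent.helper84.K3B.csqrt_re_pos (z := 1 - (e : ℂ) / s) (by
    rw [mem_slitPlane_iff]; right; exact h3.ne')
  have b2 := Pool.Agent.helper84.K3B.csqrt_im_pos h3
  have h4 : Pool.Agent.helper84.K3B.csqrt ((e : ℂ) - s) =
      -I * (Pool.Agent.helper84.K3B.csqrt s * Pool.Agent.helper84.K3B.csqrt (1 - (e : ℂ) / s)) := by
    refine Pool.Agent.helper84.K3B.csqrt_eq_of_sq ?_ ?_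
    · rw [mul_pow, mul_pow, Pool.Agent.helper84.K3B.csqrt_sq, Pool.Agent.helper84.K3B.csqrt_sq,
        neg_sq, I_sq]
      field_simp
      ring
    · rw [mul_re, mul_re, mul_im, neg_re, neg_im, I_re, I_im]
      nlinarith [mul_pos a1 b2, mul_pos a2 b1]
  unfold sheet
  rw [if_pos (offCuts_at_zero h1 h2), if_pos]
  rw [hfun_at_zero, csqrt_eq84 ((e : ℂ) - s), h4, csqrt_eq84, csqrt_eq84]
  have h5 := Pool.Agent.helper84.K3B.csqrt_mul_self s
  linear_combination (-I * Pool.Agent.helper84.K3B.csqrt (1 - (e : ℂ) / s)) * h5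

/-- `Im s < 0`: the sheet sign is `-1` -/
theorem sheet_turn_neg {s : ℂ} {e : ℝ} (he : 0 < e) (hs : s.im < 0) :
    sheet 1 s (-1) (s - (e : ℂ)) 1 0 (I * s * csqrt (1 - (e : ℂ) / s)) = -1 := by
  have hs0 : s ≠ 0 := fun h => by rw [h] at hs; simp at hs
  have h1 : s ∈ slitPlane := by
    rw [mem_slitPlane_iff]; right; exact hs.ne
  have h2 : (e : ℂ) - s ∈ slitPlane := by
    rw [mem_slitPlane_iff]; right
    rw [sub_im, ofReal_im]
    intro h; linarith
  have h3 : (1 - (e : ℂ) / s).im < 0 := by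
    rw [im_one_sub_div]
    exact div_neg_of_neg_of_pos (mul_neg_of_pos_of_neg he hs) (Complex.normSq_pos.2 hs0)
  have a1 := Pool.Agent.helper84.K3B.csqrt_re_pos h1
  have a2 := Pool.Agent.helper84.K3B.csqrt_im_neg hs
  have b1 := Pool.Agent.helper84.K3B.csqrt_re_pos (z := 1 - (e : ℂ) / s) (by
    rw [mem_slitPlane_iff]; right; exact h3.ne)
  have b2 := Pool.Agent.helper84.K3B.csqrt_im_neg h3
  have h4 : Pool.Agent.helper84.K3B.csqrt ((e : ℂ) - s) =
      I * (Pool.Agent.helper84.K3B.csqrt s * Pool.Agent.helper84.K3B.csqrt (1 - (e : ℂ) / s)) := by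
    refine Pool.Agent.helper84.K3B.csqrt_eq_of_sq ?_ ?_
    · rw [mul_pow, mul_pow, Pool.Agent.helper84.K3B.csqrt_sq, Pool.Agent.helper84.K3B.csqrt_sq,
        I_sq]
      field_simp
      ring
    · rw [mul_re, mul_re, mul_im, I_re, I_im]
      nlinarith [mul_pos a1 (neg_pos.2 b2), mul_pos (neg_pos.2 a2) b1]
  have hoff := offCuts_at_zero h1 h2
  unfold sheet
  rw [if_pos hoff, if_neg]
  intro h6
  have h7 : hfun 1 s (-1) (s - (e : ℂ)) 1 0 = -(I * s * csqrt (1 - (e : ℂ) / s)) := by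
    rw [hfun_at_zero, csqrt_eq84 ((e : ℂ) - s), h4, csqrt_eq84, csqrt_eq84]
    have h5 := Pool.Agent.helper84.K3B.csqrt_mul_self s
    linear_combination (-I * Pool.Agent.helper84.K3B.csqrt (1 - (e : ℂ) / s)) * h5
  have h8 := hfun_ne_zero_aux hoff
  apply h8
  have h9 : (2 : ℂ) * hfun 1 s (-1) (s - (e : ℂ)) 1 0 = 0 := by
    linear_combination h7 - h6
  exact (mul_eq_zero.1 h9).resolve_left two_ne_zero

/-- the point `r e^{2πi t}` -/
noncomputable def turn (r : ℝ) (t : ℝ) : ℂ := (r : ℂ) * exp (((2 * Real.pi * t : ℝ) : ℂ) * I)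

theorem turn_re (r t : ℝ) : (turn r t).re = r * Real.cos (2 * Real.pi * t) := by
  unfold turn
  rw [Complex.re_ofReal_mul, Complex.exp_ofReal_mul_I_re]

theorem turn_im (r t : ℝ) : (turn r t).im = r * Real.sin (2 * Real.pi * t) := by
  unfold turn
  rw [Complex.im_ofReal_mul, Complex.exp_ofReal_mul_I_im]

theorem turn_add_one (r t : ℝ) : turn r (t + 1) = turn r t := by
  apply Complex.ext
  · rw [turn_re, turn_re]
    have : 2 * Real.pi * (t + 1) = 2 * Real.pi * t + 2 * Real.pi := by ring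
    rw [this, Real.cos_add_two_pi]
  · rw [turn_im, turn_im]
    have : 2 * Real.pi * (t + 1) = 2 * Real.pi * t + 2 * Real.pi := by ring
    rw [this, Real.sin_add_two_pi]

/-- the sheet sign as a function of the angle -/
noncomputable def turnE (r0 r1 : ℝ) (t : ℝ) : ℚ :=
  sheet 1 (turn r0 t) (-1) (turn r0 t - (r1 : ℂ)) 1 0
    (I * turn r0 t * csqrt (1 - (r1 : ℂ) / turn r0 t))

/-- the indicator as a function of the angle -/
noncomputable def turnI (r0 r1 lam : ℝ) (t : ℝ) : ℚ :=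
  ind ((turn r0 t).re - lam * r1 < 0)

/-- the data needed by `wsum_two_jumps` -/
theorem turn_data {r0 r1 lam : ℝ} (h0 : 0 < r0) (h1 : 0 < r1) (h01 : r1 < r0) (hl : 0 < lam)
    (hl1 : lam < 1) :
    (∀ t, turnI r0 r1 lam (t + 1) = turnI r0 r1 lam t) ∧ (∀ t, turnE r0 r1 (t + 1) = turnE r0 r1 t) ∧
    ∃ c d : ℝ, 0 < c ∧ c < 1 / 2 ∧ 0 < d ∧
      (∀ t, |t| < c → turnI r0 r1 lam t = 0) ∧
      (∀ t, c < t → t < 1 - c → turnI r0 r1 lam t = 1) ∧
      (∀ t, |t - c| < d → turnE r0 r1 t = 1) ∧ (∀ t, |t + c| < d → turnE r0 r1 t = -1) := by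
  refine ⟨fun t => by unfold turnI; rw [turn_add_one], fun t => by
    unfold turnE; rw [turn_add_one], ?_⟩
  have hpi := Real.pi_pos
  obtain ⟨κ, hκ⟩ : ∃ κ : ℝ, κ = lam * r1 / r0 := ⟨_, rfl⟩
  have hκ0 : 0 < κ := by rw [hκ]; positivity
  have hκ1 : κ < 1 := by
    rw [hκ, div_lt_one h0]
    nlinarith
  have hac0 : 0 < Real.arccos κ := Real.arccos_pos.2 hκ1
  have hac1 : Real.arccos κ < Real.pi / 2 := Real.arccos_lt_pi_div_two.2 hκ0
  obtain ⟨c, hc⟩ : ∃ c : ℝ, c = Real.arccos κ / (2 * Real.pi) := ⟨_, rfl⟩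
  have hc2 : 2 * Real.pi * c = Real.arccos κ := by rw [hc]; field_simp
  have hc0 : 0 < c := by rw [hc]; positivity
  have hc1 : c < 1 / 4 := by
    rw [hc, div_lt_iff₀ (by positivity)]
    linarith
  have hcos : Real.cos (2 * Real.pi * c) = κ := by
    rw [hc2, Real.cos_arccos (by linarith) hκ1.le]
  have key : ∀ t : ℝ, ((turn r0 t).re - lam * r1 < 0 ↔ Real.cos (2 * Real.pi * t) < κ) := by
    intro t
    rw [turn_re, hκ, lt_div_iff₀ h0]
    constructor <;> intro h <;> linarith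
  refine ⟨c, c, hc0, by linarith, hc0, ?_, ?_, ?_, ?_⟩
  · intro t ht
    unfold turnI ind
    rw [if_neg]
    rw [key, not_lt, ← hcos, ← Real.cos_abs (2 * Real.pi * t)]
    have h2 : |2 * Real.pi * t| = 2 * Real.pi * |t| := by
      rw [abs_mul, abs_of_pos (by positivity)]
    rw [h2]
    refine Real.cos_le_cos_of_nonneg_of_le_pi (by positivity) ?_ ?_
    · nlinarith
    · exact mul_le_mul_of_nonneg_left ht.le (by positivity)
  · intro t ht1 ht2
    unfold turnI ind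
    rw [if_pos]
    rw [key, ← hcos]
    rcases le_total t (1 / 2) with h | h
    · refine Real.cos_lt_cos_of_nonneg_of_le_pi (by positivity) ?_ ?_
      · nlinarith
      · exact mul_lt_mul_of_pos_left ht1 (by positivity)
    · have h3 : Real.cos (2 * Real.pi * t) = Real.cos (2 * Real.pi * (1 - t)) := by
        have : 2 * Real.pi * (1 - t) = 2 * Real.pi - 2 * Real.pi * t := by ring
        rw [this, Real.cos_two_pi_sub]
      rw [h3]
      refine Real.cos_lt_cos_of_nonneg_of_le_pi (by positivity) ?_ ?_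
      · nlinarith
      · exact mul_lt_mul_of_pos_left (by linarith) (by positivity)
  · intro t ht
    rw [abs_lt] at ht
    unfold turnE
    refine sheet_turn_pos h1 ?_
    rw [turn_im]
    refine mul_pos h0 (Real.sin_pos_of_pos_of_lt_pi ?_ ?_)
    · have : 0 < t := by linarith
      positivity
    · nlinarith
  · intro t ht
    rw [abs_lt] at ht
    unfold turnE
    refine sheet_turn_neg h1 ?_
    rw [turn_im]
    refine mul_neg_of_pos_of_neg h0 (Real.sin_neg_of_neg_of_neg_pi_lt ?_ ?_)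
    · have : t < 0 := by linarith
      nlinarith
    · nlinarith

theorem ep0_bT (ρ : Fin 5 → ℝ) (θ₂ t : ℝ) :
    ep0 (bT ρ (2 * Real.pi * t) θ₂) = turnE (ρ 0) (ρ 1) t := rfl

theorem in0_bT (ρ : Fin 5 → ℝ) (θ₂ t lam : ℝ) :
    in0 lam (bT ρ (2 * Real.pi * t) θ₂) = turnI (ρ 0) (ρ 1) lam t := rfl

theorem ep1_bT (ρ : Fin 5 → ℝ) (θ₁ t : ℝ) :
    ep1 (bT ρ θ₁ (2 * Real.pi * t)) = turnE (ρ 2) (ρ 3) t := rfl

theorem in1_bT (ρ : Fin 5 → ℝ) (θ₁ t : ℝ) :
    in1 (bT ρ θ₁ (2 * Real.pi * t)) = turnI (ρ 2) (ρ 3) (1 / 2) t := rfl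

end TripleBurger
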